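import Pool.Agent.L7h39.VS.Dom
import Pool.Agent.Y529.CS.Sub

set_option autoImplicit false

/-!
# Classes of elementary vectors, and dominating points
-/

namespace Pool.Agent.L7h39.VS

open Finset Pool.Agent.Y648.CS Pool.Agent.Y721.CS

/-- The number `x` lies in one of the intervals `[s, 2 ^ r s]`, for positive `s` in `S`. -/
def Near (r : ℕ) (S : Finset ℝ) (x : ℝ) : Prop := ∃ s ∈ S, 0 < s ∧ s ≤ x ∧ x ≤ 2 ^ r * s

theorem Near.mono {r r' : ℕ} {S S' : Finset ℝ} {x : ℝ} (h : Near r S x) (hr : r ≤ r')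
    (hS : S ⊆ S') : Near r' S' x := by
  obtain ⟨s, h1, h2, h3, h4⟩ := h
  refine ⟨s, hS h1, h2, h3, h4.trans ?_⟩
  exact mul_le_mul_of_nonneg_right (pow_le_pow_right₀ (by norm_num) hr) h2.le

/-- At most one point of a finite set which minimises a function. -/
theorem pick_min {α : Type} (U : Set α) (hU : U.Finite) (f : α → ℝ) :
    ∃ G : Finset α, G.card ≤ 1 ∧ (∀ a ∈ G, a ∈ U) ∧ ∀ p ∈ U, ∃ k ∈ G, f k ≤ f p := by
  classical
  by_cases h : U.Nonempty
  · obtain ⟨a, ha, hmin⟩ := Set.exists_min_image U f hU h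
    exact ⟨{a}, by simp, by simpa using ha, fun p hp => ⟨a, by simp, hmin p hp⟩⟩
  · exact ⟨∅, by simp, by simp, fun p hp => absurd ⟨p, hp⟩ h⟩

theorem dom_fin (r : ℕ) (T : Set (ℝ × ℝ)) (hT : T.Finite)
    (h0 : ∀ p ∈ T, 0 < p.1 ∧ 0 ≤ p.2) (S S' : Finset ℝ)
    (h : ∀ p ∈ T, Near r S p.1 ∨ p.2 = 0 ∨ Near r S' p.2) :
    ∃ F : Finset (ℝ × ℝ), (∀ k ∈ F, k ∈ T) ∧ F.card ≤ S.card + S'.card + 1 ∧
      ∀ p ∈ T, ∃ k ∈ F, p.1 ≤ 2 ^ r * k.1 ∧ p.1 * k.2 ≤ 2 ^ r * k.1 * p.2 := by
  classical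
  choose G1 hG1c hG1T hG1 using fun s : ℝ => pick_min {p | p ∈ T ∧ s ≤ p.1 ∧ p.1 ≤ 2 ^ r * s}
    (hT.subset fun p hp => hp.1) (fun p => p.2)
  choose G2 hG2c hG2T hG2 using fun s : ℝ => pick_min {p | p ∈ T ∧ s ≤ p.2 ∧ p.2 ≤ 2 ^ r * s}
    (hT.subset fun p hp => hp.1) (fun p => - p.1)
  obtain ⟨G3, hG3c, hG3T, hG3⟩ := pick_min {p | p ∈ T ∧ p.2 = 0}
    (hT.subset fun p hp => hp.1) (fun p => - p.1)
  have h2 : (1 : ℝ) ≤ 2 ^ r := one_le_pow₀ (by norm_num)
  refine ⟨S.biUnion G1 ∪ S'.biUnion G2 ∪ G3, ?_, ?_, ?_⟩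
  · intro k hk
    rw [Finset.mem_union, Finset.mem_union, Finset.mem_biUnion, Finset.mem_biUnion] at hk
    rcases hk with (⟨s, -, hk⟩ | ⟨s, -, hk⟩) | hk
    · exact (hG1T s k hk).1
    · exact (hG2T s k hk).1
    · exact (hG3T k hk).1
  · have e1 : (S.biUnion G1).card ≤ S.card := by
      refine Finset.card_biUnion_le.trans ((Finset.sum_le_sum fun s _ => hG1c s).trans ?_)
      simp
    have e2 : (S'.biUnion G2).card ≤ S'.card := by
      refine Finset.card_biUnion_le.trans ((Finset.sum_le_sum fun s _ => hG2c s).trans ?_)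
      simp
    refine (Finset.card_union_le _ _).trans (Nat.add_le_add ?_ hG3c)
    exact (Finset.card_union_le _ _).trans (Nat.add_le_add e1 e2)
  · intro p hp
    obtain ⟨hp1, hp2⟩ := h0 p hp
    rcases h p hp with ⟨s, hs, hs0, h3, h4⟩ | h3 | ⟨s, hs, hs0, h3, h4⟩
    · obtain ⟨k, hk, hle⟩ := hG1 s p ⟨hp, h3, h4⟩
      obtain ⟨hkT, hk3, hk4⟩ := hG1T s k hk
      obtain ⟨hk1, hk2⟩ := h0 k hkT
      have h5 : p.1 ≤ 2 ^ r * k.1 := h4.trans (by gcongr)
      refine ⟨k, ?_, h5, ?_⟩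
      · simp only [Finset.mem_union, Finset.mem_biUnion]
        exact Or.inl (Or.inl ⟨s, hs, hk⟩)
      · calc p.1 * k.2 ≤ (2 ^ r * k.1) * p.2 := mul_le_mul h5 hle hk2 (by positivity)
          _ = 2 ^ r * k.1 * p.2 := rfl
    · obtain ⟨k, hk, hle⟩ := hG3 p ⟨hp, h3⟩
      obtain ⟨hkT, hk3⟩ := hG3T k hk
      obtain ⟨hk1, hk2⟩ := h0 k hkT
      refine ⟨k, ?_, ?_, ?_⟩
      · simp only [Finset.mem_union]
        exact Or.inr hk
      · nlinarith
      · rw [hk3, h3]
        simp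
    · obtain ⟨k, hk, hle⟩ := hG2 s p ⟨hp, h3, h4⟩
      obtain ⟨hkT, hk3, hk4⟩ := hG2T s k hk
      obtain ⟨hk1, hk2⟩ := h0 k hkT
      refine ⟨k, ?_, ?_, ?_⟩
      · simp only [Finset.mem_union, Finset.mem_biUnion]
        exact Or.inl (Or.inr ⟨s, hs, hk⟩)
      · nlinarith
      · have h5 : p.1 ≤ k.1 := by linarith
        calc p.1 * k.2 ≤ k.1 * (2 ^ r * s) := mul_le_mul h5 hk4 hk2 hk1.le
          _ = 2 ^ r * k.1 * s := by ring
          _ ≤ 2 ^ r * k.1 * p.2 := by gcongr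

/-- The values of the elementary vectors at two coordinates are finitely many. -/
theorem fin_T {Ls : Submodule ℝ (ℕ → ℝ)} {X : Finset ℕ} {q nu : ℕ} (hS : SpC Ls X q nu) (e : ℕ)
    (he : e ∈ X) : {p : ℝ × ℝ | ∃ v, ElV Ls X nu v ∧ v e ≠ 0 ∧ p = (v e, max (v q) 0)}.Finite := by
  classical
  obtain ⟨s1, s2, s3, s4, s5⟩ := hS
  set φ : Finset ℕ → ℝ × ℝ := fun U =>
    if h : ∃ v, ElV Ls X nu v ∧ sp X v = U then (h.choose e, max (h.choose q) 0) else 0 with hφ
  refine (X.powerset.image φ).finite_toSet.subset ?_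
  rintro p ⟨v, hv, hve, rfl⟩
  rw [Finset.mem_coe, Finset.mem_image]
  refine ⟨sp X v, ?_, ?_⟩
  · rw [Finset.mem_powerset]
    exact Finset.filter_subset _ _
  · have hex : ∃ u, ElV Ls X nu u ∧ sp X u = sp X v := ⟨v, hv, rfl⟩
    simp only [hφ]
    rw [dif_pos hex]
    obtain ⟨hu, hus⟩ := hex.choose_spec
    set u := hex.choose
    obtain ⟨l, hl⟩ := hv.2.2.2 u hu.1 (by
      intro c hc h0
      by_contra h
      have h1 : c ∈ sp X u := mem_sp.2 ⟨hc, h⟩
      rw [hus] at h1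
      exact (mem_sp.1 h1).2 h0)
    have hl1 : l = 1 := by
      have e1 := hu.2.2.1
      have e2 := hv.2.2.1
      rw [s4 u hu.1, Finset.sum_congr rfl hl, ← Finset.mul_sum, ← s4 v hv.1, e2, mul_one] at e1
      exact e1
    have hc : ∀ c ∈ X, u c = v c := fun c hc => by rw [hl c hc, hl1, one_mul]
    have hq : u q = v q := by
      have := s5 (u - v) (Ls.sub_mem hu.1 hv.1) (fun c h => by
        rw [Pi.sub_apply, hc c h, sub_self])
      rw [Pi.sub_apply, sub_eq_zero] at this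
      exact this
    rw [hc e he, hq]

/-- The condition for one coordinate. -/
def DomE (r : ℕ) (Ls : Submodule ℝ (ℕ → ℝ)) (X : Finset ℕ) (q nu e : ℕ) : Prop :=
  ∃ F : Finset (ℝ × ℝ), F.card ≤ r ∧
    (∀ k ∈ F, 0 < k.1 ∧ 0 ≤ k.2 ∧
      ∃ x ∈ Ls, (∀ c ∈ X, 0 ≤ x c) ∧ x nu ≤ 1 ∧ k.1 ≤ x e ∧ x q ≤ k.2) ∧
    ∀ v, ElV Ls X nu v → v e ≠ 0 → ∃ k ∈ F, v e ≤ 2 ^ r * k.1 ∧
      v e * k.2 ≤ 2 ^ r * k.1 * max (v q) 0

theorem DomE.mono {r r' : ℕ} {Ls : Submodule ℝ (ℕ → ℝ)} {X : Finset ℕ} {q nu e : ℕ}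
    (h : DomE r Ls X q nu e) (hr : r ≤ r') : DomE r' Ls X q nu e := by
  obtain ⟨F, h1, h2, h3⟩ := h
  refine ⟨F, h1.trans hr, h2, fun v hv hve => ?_⟩
  obtain ⟨k, hk, h4, h5⟩ := h3 v hv hve
  obtain ⟨hk1, hk2, -⟩ := h2 k hk
  have h6 : (2 : ℝ) ^ r ≤ 2 ^ r' := pow_le_pow_right₀ (by norm_num) hr
  refine ⟨k, hk, h4.trans (by gcongr), h5.trans ?_⟩
  have h7 : 0 ≤ max (v q) 0 := le_max_right _ _
  gcongr

theorem domE_of_cls {r : ℕ} {Ls : Submodule ℝ (ℕ → ℝ)} {X : Finset ℕ} {q nu e : ℕ}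
    (hS : SpC Ls X q nu) (he : e ∈ X) (S S' : Finset ℝ)
    (h : ∀ v, ElV Ls X nu v → v e ≠ 0 → Near r S (v e) ∨ v q ≤ 0 ∨ Near r S' (v q)) :
    DomE (r + S.card + S'.card + 1) Ls X q nu e := by
  obtain ⟨F, h1, h2, h3⟩ := dom_fin r _ (fin_T hS e he) (by
    rintro p ⟨v, hv, hve, rfl⟩
    exact ⟨lt_of_le_of_ne (hv.2.1 e he) (Ne.symm hve), le_max_right _ _⟩) S S' (by
    rintro p ⟨v, hv, hve, rfl⟩
    rcases h v hv hve with h4 | h4 | h4
    · exact Or.inl h4
    · exact Or.inr (Or.inl (max_eq_right h4))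
    · refine Or.inr (Or.inr ?_)
      have h5 : 0 ≤ v q := by
        obtain ⟨s, -, hs, hs1, -⟩ := h4
        linarith
      show Near r S' (max (v q) 0)
      rw [max_eq_left h5]
      exact h4)
  refine ⟨F, by omega, fun k hk => ?_, fun v hv hve => ?_⟩
  · obtain ⟨v, hv, hve, rfl⟩ := h1 k hk
    exact ⟨lt_of_le_of_ne (hv.2.1 e he) (Ne.symm hve), le_max_right _ _, v, hv.1, hv.2.1,
      hv.2.2.1.le, le_rfl, le_max_left _ _⟩
  · obtain ⟨k, hk, h4, h5⟩ := h3 (v e, max (v q) 0) ⟨v, hv, hve, rfl⟩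
    have hk1 : 0 < k.1 := by
      obtain ⟨u, hu, hue, rfl⟩ := h1 k hk
      exact lt_of_le_of_ne (hu.2.1 e he) (Ne.symm hue)
    have h6 : (2 : ℝ) ^ r ≤ 2 ^ (r + S.card + S'.card + 1) :=
      pow_le_pow_right₀ (by norm_num) (by omega)
    have h7 : 0 ≤ max (v q) 0 := le_max_right _ _
    refine ⟨k, hk, h4.trans (by gcongr), h5.trans ?_⟩
    show 2 ^ r * k.1 * max (v q) 0 ≤ _
    gcongr

/-! ### The two phases -/

/-- The sum of the absolute values. -/
noncomputable def mass {m : ℕ} (C : Fin m → ℝ) : ℝ := ∑ i, |C i|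

/-- The sum of the absolute values of the negative entries. -/
noncomputable def neg {m : ℕ} (C : Fin m → ℝ) : ℝ := ∑ i, max (- C i) 0

open Pool.Agent.NPC Pool.Agent.H558R2 Pool.Agent.H622R3.SM Pool.Agent.Y529.CS

theorem lt_cases' {m c : ℕ} (h : c < m + m) :
    (∃ d : Fin m, c = d) ∨ ∃ d : Fin m, c = m + (d : ℕ) := by
  by_cases h1 : c < m
  · exact Or.inl ⟨⟨c, h1⟩, rfl⟩
  · refine Or.inr ⟨⟨c - m, by omega⟩, ?_⟩
    show c = m + (c - m)
    omega

/-- The elementary vectors in the first phase. -/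
theorem el0 {m n : ℕ} (A : Fin m → Fin n → ℝ) (b : Fin m → ℝ) (v : ℕ → ℝ)
    (hv : ElV (Lsp m n 0 (start A b) (dr0 m)) (Xc m (dr0 m)) (m + m + 1) v) :
    (∀ c : Fin m, 0 ≤ v c) ∧ (∀ c : Fin m, 0 ≤ v (m + (c : ℕ))) ∧
    (∑ c : Fin m, (v c + v (m + (c : ℕ))) = 1) ∧ v (m + m) = ∑ c : Fin m, v (m + (c : ℕ)) ∧
    ((∀ c < m + m, v c ≠ 0 → v c = 1 / 2) ∨
      ((∀ c : Fin m, v c = 0 ∨ v (m + (c : ℕ)) = 0) ∧
        Circ (Matrix.of A) (fun c : Fin m => v c - v (m + (c : ℕ))))) := by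
  classical
  obtain ⟨hvL, hv0, hvn, hvm⟩ := hv
  rw [Xc0] at hv0 hvm
  rw [mem_Lsp0] at hvL
  obtain ⟨hL1, hL2, hL3⟩ := hvL
  have hl0 : ∀ c : Fin m, 0 ≤ v c := fun c => hv0 c (Finset.mem_range.2 (by have := c.2; omega))
  have hr0 : ∀ c : Fin m, 0 ≤ v (m + c) := fun c =>
    hv0 _ (Finset.mem_range.2 (by have := c.2; omega))
  have hsum : ∑ c : Fin m, (v c + v (m + (c : ℕ))) = 1 := by rw [← hL3, hvn]
  refine ⟨hl0, hr0, hsum, hL2, ?_⟩
  by_cases hc : ∃ c : Fin m, v c ≠ 0 ∧ v (m + (c : ℕ)) ≠ 0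
  · -- a trivial vector
    left
    obtain ⟨c, hc1, hc2⟩ := hc
    obtain ⟨l, hl⟩ := hvm (mk2 (fun d => if d = c then 1 else 0) (fun d => if d = c then 1 else 0)
        1 2)
      (by
        rw [mem_Lsp0]
        refine ⟨fun i => ?_, ?_, ?_⟩
        · simp
        · simp
        · simp [Finset.sum_add_distrib]
          norm_num)
      (by
        intro d hd hvd
        rw [Finset.mem_range] at hd
        rcases lt_cases' hd with ⟨e, rfl⟩ | ⟨e, rfl⟩
        · rw [mk2_l]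
          split_ifs with h
          · subst h
            exact absurd hvd hc1
          · rfl
        · rw [mk2_r]
          split_ifs with h
          · subst h
            exact absurd hvd hc2
          · rfl)
    have hl0' : l ≠ 0 := by
      rintro rfl
      have h2 := hl c (Finset.mem_range.2 (by have := c.2; omega))
      rw [mk2_l, if_pos rfl, zero_mul] at h2
      exact one_ne_zero h2
    have hvl : ∀ d : Fin m, v d = if d = c then l⁻¹ else 0 := by
      intro d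
      have h1 := hl d (Finset.mem_range.2 (by have := d.2; omega))
      rw [mk2_l] at h1
      split_ifs at h1 ⊢ with h
      · field_simp
        linarith
      · rcases mul_eq_zero.1 h1.symm with h2 | h2
        · exact absurd h2 hl0'
        · exact h2
    have hvr : ∀ d : Fin m, v (m + (d : ℕ)) = if d = c then l⁻¹ else 0 := by
      intro d
      have h1 := hl (m + (d : ℕ)) (Finset.mem_range.2 (by have := d.2; omega))
      rw [mk2_r] at h1
      split_ifs at h1 ⊢ with h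
      · field_simp
        linarith
      · rcases mul_eq_zero.1 h1.symm with h2 | h2
        · exact absurd h2 hl0'
        · exact h2
    have hl2 : l⁻¹ = 1 / 2 := by
      have h1 := hsum
      simp only [hvl, hvr, Finset.sum_add_distrib, Finset.sum_ite_eq', Finset.mem_univ,
        if_true] at h1
      linarith
    intro d hd hvd
    rcases lt_cases' hd with ⟨e, rfl⟩ | ⟨e, rfl⟩
    · rw [hvl] at hvd ⊢
      split_ifs at hvd ⊢ with h
      · exact hl2
      · exact absurd rfl hvd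
    · rw [hvr] at hvd ⊢
      split_ifs at hvd ⊢ with h
      · exact hl2
      · exact absurd rfl hvd
  · -- a circuit
    right
    push Not at hc
    have hex : ∀ c : Fin m, v c = 0 ∨ v (m + (c : ℕ)) = 0 := fun c => by
      by_cases h : v c = 0
      · exact Or.inl h
      · exact Or.inr (hc c h)
    refine ⟨hex, ?_⟩
    set C : Fin m → ℝ := fun c => v c - v (m + c) with hC
    refine ⟨fun h => ?_, ?_, ?_⟩
    · have h1 : ∀ c : Fin m, v c + v (m + (c : ℕ)) = 0 := by
        intro c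
        have h2 : v c - v (m + (c : ℕ)) = 0 := congrFun h c
        rcases hex c with h3 | h3
        · rw [h3] at h2 ⊢
          linarith
        · rw [h3] at h2 ⊢
          linarith
      rw [Finset.sum_eq_zero fun c _ => h1 c] at hsum
      exact zero_ne_one hsum
    · funext i
      show ∑ c, C c * A c i = 0
      rw [← hL1 i]
      exact Finset.sum_congr rfl fun c _ => mul_comm _ _
    · intro D hD hsup
      have hD' : ∀ i, ∑ c, A c i * D c = 0 := by
        intro i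
        have h1 := congrFun hD i
        have h2 : ∑ c, D c * A c i = 0 := h1
        rw [← h2]
        exact Finset.sum_congr rfl fun c _ => mul_comm _ _
      set u : Fin m → ℝ := fun c => if v c = 0 then 0 else D c with hu
      set w : Fin m → ℝ := fun c => if v (m + (c : ℕ)) = 0 then 0 else - D c with hw
      have huw : ∀ c, u c - w c = D c := by
        intro c
        simp only [hu, hw]
        rcases hex c with h | h
        · rw [if_pos h]
          by_cases h' : v (m + (c : ℕ)) = 0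
          · rw [if_pos h', sub_zero]
            exact (hsup c (by simp only [hC]; rw [h, h', sub_zero])).symm
          · rw [if_neg h']
            ring
        · rw [if_pos h, sub_zero]
          by_cases h' : v c = 0
          · rw [if_pos h']
            exact (hsup c (by simp only [hC]; rw [h, h', sub_zero])).symm
          · rw [if_neg h']
      obtain ⟨l, hl⟩ := hvm (mk2 u w (∑ c, w c) (∑ c, (u c + w c)))
        (by
          rw [mem_Lsp0]
          refine ⟨fun i => ?_, ?_, ?_⟩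
          · simp only [mk2_l, mk2_r]
            rw [← hD' i]
            exact Finset.sum_congr rfl fun c _ => by rw [huw]
          · simp only [mk2_q, mk2_r]
          · simp only [mk2_nu, mk2_l, mk2_r])
        (by
          intro d hd hvd
          rw [Finset.mem_range] at hd
          rcases lt_cases' hd with ⟨e, rfl⟩ | ⟨e, rfl⟩
          · rw [mk2_l]
            simp only [hu]
            rw [if_pos hvd]
          · rw [mk2_r]
            simp only [hw]
            rw [if_pos hvd])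
      refine ⟨l, ?_⟩
      funext c
      have h1 := hl c (Finset.mem_range.2 (by have := c.2; omega))
      have h2 := hl (m + c) (Finset.mem_range.2 (by have := c.2; omega))
      rw [mk2_l] at h1
      rw [mk2_r] at h2
      show D c = l * C c
      rw [← huw c, h1, h2]
      simp only [hC]
      ring

/-- The elementary vectors in the second phase. -/
theorem el1 {m n : ℕ} (A : Fin m → Fin n → ℝ) (b : Fin m → ℝ) (B : List Bool) (v : ℕ → ℝ)
    (hv : ElV (Lsp m n 1 (start A b) (dr1 m B)) (Xc m (dr1 m B)) (m + m + 1) v) :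
    (∀ c, 0 ≤ rs (m := m) B v c) ∧ ∑ c, rs (m := m) B v c = 1 ∧
    v (m + m) = - ∑ c : Fin m, b c * rs B v c ∧ Circ (Matrix.of A) (rs (m := m) B v) := by
  classical
  obtain ⟨hvL, hv0, hvn, hvm⟩ := hv
  rw [mem_Lsp1] at hvL
  obtain ⟨hL1, hL2, hL3⟩ := hvL
  have hnn : ∀ c, 0 ≤ rs (m := m) B v c := by
    intro c
    unfold rs
    split_ifs with h
    · exact hv0 c (by rw [mem_Xc1]; exact ⟨c.2, h⟩)
    · exact le_rfl
  have hsum : ∑ c, rs (m := m) B v c = 1 := by rw [← hL3, hvn]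
  refine ⟨hnn, hsum, hL2, ?_, ?_, ?_⟩
  · intro h
    rw [h] at hsum
    simp at hsum
  · funext i
    show ∑ c, rs B v c * A c i = 0
    rw [← hL1 i]
    exact Finset.sum_congr rfl fun c _ => mul_comm _ _
  · intro D hD hsup
    have hD' : ∀ i, ∑ c, A c i * D c = 0 := by
      intro i
      have h1 := congrFun hD i
      have h2 : ∑ c, D c * A c i = 0 := h1
      rw [← h2]
      exact Finset.sum_congr rfl fun c _ => mul_comm _ _
    have hz : rs B (mk2 D 0 (- ∑ c, b c * D c) (∑ c, D c)) = D := by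
      funext c
      unfold rs
      split_ifs with h
      · rw [mk2_l]
      · exact (hsup c (by unfold rs; rw [if_neg h])).symm
    obtain ⟨l, hl⟩ := hvm (mk2 D 0 (- ∑ c, b c * D c) (∑ c, D c))
      (by
        rw [mem_Lsp1, hz]
        exact ⟨hD', mk2_q _ _ _ _, mk2_nu _ _ _ _⟩)
      (by
        intro d hd hvd
        rw [mem_Xc1] at hd
        have h1 : mk2 D 0 (- ∑ c, b c * D c) (∑ c, D c) d = D ⟨d, hd.1⟩ :=
          mk2_l D 0 _ _ (⟨d, hd.1⟩ : Fin m)
        rw [h1]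
        apply hsup
        unfold rs
        rw [if_pos hd.2]
        exact hvd)
    refine ⟨l, ?_⟩
    funext c
    show D c = l * rs B v c
    by_cases h : B.getD c false = true
    · have h1 := hl c (by rw [mem_Xc1]; exact ⟨c.2, h⟩)
      rw [mk2_l] at h1
      rw [h1]
      unfold rs
      rw [if_pos h]
    · have h2 : rs B v c = 0 := by
        unfold rs
        rw [if_neg h]
      rw [h2, hsup c h2, mul_zero]

end Pool.Agent.L7h39.VS
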