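import Pool.Agent.Y721.CS.T_FST

set_option autoImplicit false

/-!
# The structure of the path if few points dominate all elementary vectors

For every coordinate `e` there are few points `x` (given by the pair of `x e` and `x q`) such that
every nonnegative elementary vector `v` is dominated by one of them, up to the factor `2 ^ r`: its
coordinate `v e`, and the quotient `v e / v q`, are not much larger than those of `x`.
-/

namespace Pool.Agent.L7h39.VS

open Finset Pool.Agent.Y648.CS Pool.Agent.Y721.CS

/-- Few points dominate all elementary vectors. -/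
def Dom (r : ℕ) (Ls : Submodule ℝ (ℕ → ℝ)) (X : Finset ℕ) (q nu : ℕ) : Prop :=
  ∀ e ∈ X, ∃ F : Finset (ℝ × ℝ), F.card ≤ r ∧
    (∀ k ∈ F, 0 < k.1 ∧ 0 ≤ k.2 ∧
      ∃ x ∈ Ls, (∀ c ∈ X, 0 ≤ x c) ∧ x nu ≤ 1 ∧ k.1 ≤ x e ∧ x q ≤ k.2) ∧
    ∀ v, ElV Ls X nu v → v e ≠ 0 → ∃ k ∈ F, v e ≤ 2 ^ r * k.1 ∧
      v e * k.2 ≤ 2 ^ r * k.1 * max (v q) 0

/-- The piece given by a point. -/
noncomputable def pk (k : ℝ × ℝ) : ℝ × Option ℝ :=
  (Real.logb 2 k.1, if k.2 = 0 then none else some (Real.logb 2 k.1 - Real.logb 2 k.2))

/-- lower bound of the weights -/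
theorem low {Ls : Submodule ℝ (ℕ → ℝ)} {X : Finset ℕ} {q nu : ℕ} {t : ℝ} {w : ℕ → ℝ}
    {M : ℝ} (hW : Wts X q nu t w) (hB : Bds Ls X q nu t w M)
    {e : ℕ} (he : e ∈ X) {k : ℝ × ℝ} (h1 : 0 < k.1) (h2 : 0 ≤ k.2)
    {x : ℕ → ℝ} (hx : x ∈ Ls) (hx0 : ∀ c ∈ X, 0 ≤ x c) (hxn : x nu ≤ 1) (hxe : k.1 ≤ x e)
    (hxq : x q ≤ k.2) : pc (pk k) (Real.logb 2 t) ≤ Real.logb 2 (w e) := by
  obtain ⟨w1, w2, w3, w4, w5, w6, w7⟩ := hW
  have hwe := w5 e he
  have hmul : ∀ μ : ℝ, 0 < μ → μ ≤ 1 → μ * k.2 ≤ t → Real.logb 2 (μ * k.1) ≤ Real.logb 2 (w e) := by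
    intro μ hμ0 hμ1 hμt
    have h4 : μ • x ∈ Sl Ls X q nu t := by
      refine ⟨Ls.smul_mem _ hx, fun c hc => mul_nonneg hμ0.le (hx0 c hc), ?_, ?_⟩
      · show μ * x nu ≤ 1
        by_cases h0 : 0 ≤ x nu
        · exact mul_le_one₀ hμ1 h0 hxn
        · push Not at h0
          have : μ * x nu < 0 := mul_neg_of_pos_of_neg hμ0 h0
          linarith
      · show μ * x q ≤ t
        exact (mul_le_mul_of_nonneg_left hxq hμ0.le).trans hμt
    have h5 : μ * x e ≤ w e := (hB _ h4).1 e he
    exact Real.logb_le_logb_of_le (by norm_num) (mul_pos hμ0 h1)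
      ((mul_le_mul_of_nonneg_left hxe hμ0.le).trans h5)
  unfold pk pc
  by_cases hg : k.2 = 0
  · simp only [hg, if_true]
    have := hmul 1 one_pos le_rfl (by rw [hg, mul_zero]; exact w4.le)
    rwa [one_mul] at this
  · have hg0 : 0 < k.2 := lt_of_le_of_ne h2 (Ne.symm hg)
    simp only [hg, if_false]
    by_cases hkt : k.2 ≤ t
    · refine (min_le_left _ _).trans ?_
      have := hmul 1 one_pos le_rfl (by rwa [one_mul])
      rwa [one_mul] at this
    · push Not at hkt
      refine (min_le_right _ _).trans ?_
      have := hmul (t / k.2) (by positivity) ((div_le_one hg0).2 hkt.le)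
        (by rw [div_mul_cancel₀ _ hg])
      refine le_trans (le_of_eq ?_) this
      rw [Real.logb_mul (by positivity) h1.ne', Real.logb_div w4.ne' hg]
      ring

theorem fsd (Ls : Submodule ℝ (ℕ → ℝ)) (X : Finset ℕ) (q nu r K : ℕ)
    (hS : SpC Ls X q nu) (hK : X.card + 2 ≤ K) (hD : Dom r Ls X q nu) :
    ∃ (Z : Finset ℝ) (F : ℕ → ℝ → ℝ), Z.card ≤ K * (K * r) ^ 2 ∧
    Kink (insert q (insert nu X)) q nu F Z ∧
    ∀ (t : ℝ) (w : ℕ → ℝ) (M ε : ℝ) (x : ℕ → ℝ), Wts X q nu t w → 0 < ε → ε ≤ 1 → 1 ≤ M →
      Bds Ls X q nu t w M → Cen Ls X q nu t w ε x →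
      ∀ e ∈ insert q (insert nu X), F e (Real.logb 2 t) ≤ Real.logb 2 (w e) ∧
        Real.logb 2 (w e) ≤ F e (Real.logb 2 t) + (r + Real.logb 2 (K ^ 2 * (1 + M) / ε)) := by
  classical
  have hex : ∀ e : ℕ, ∃ F : Finset (ℝ × ℝ), F.card ≤ r ∧
      (e ∈ X → (∀ k ∈ F, 0 < k.1 ∧ 0 ≤ k.2 ∧
        ∃ x ∈ Ls, (∀ c ∈ X, 0 ≤ x c) ∧ x nu ≤ 1 ∧ k.1 ≤ x e ∧ x q ≤ k.2) ∧
      ∀ v, ElV Ls X nu v → v e ≠ 0 → ∃ k ∈ F, v e ≤ 2 ^ r * k.1 ∧
        v e * k.2 ≤ 2 ^ r * k.1 * max (v q) 0) := by
    intro e
    by_cases he : e ∈ X
    · obtain ⟨F, h1, h2, h3⟩ := hD e he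
      exact ⟨F, h1, fun _ => ⟨h2, h3⟩⟩
    · exact ⟨∅, by simp, fun h => absurd h he⟩
  choose D hD1 hD2 using hex
  set P : ℕ → Finset (ℝ × Option ℝ) := fun e => (D e).image pk with hP
  have hPc : ∀ e, (P e).card ≤ K * r := fun e => by
    refine Finset.card_image_le.trans ((hD1 e).trans ?_)
    exact Nat.le_mul_of_pos_left _ (by omega)
  refine ⟨X.biUnion fun e => zp (P e), fun e y => if e = q then y else if e = nu then 0 else
    mx (P e) y, ?_, ?_, ?_⟩
  · refine Finset.card_biUnion_le.trans ?_
    have hXK : X.card ≤ K := by omega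
    calc ∑ e ∈ X, (zp (P e)).card ≤ ∑ e ∈ X, (K * r) ^ 2 := by
          refine Finset.sum_le_sum fun e he => (card_zp _).trans ?_
          have h1 := hPc e
          gcongr
      _ = X.card * (K * r) ^ 2 := by rw [Finset.sum_const, smul_eq_mul]
      _ ≤ K * (K * r) ^ 2 := by gcongr
  · intro y₁ y₂ hy hz
    have hdich : ∀ e ∈ X, (∀ y, y₁ ≤ y → y ≤ y₂ → mx (P e) y = mx (P e) y₁) ∨
        (∀ y, y₁ ≤ y → y ≤ y₂ → mx (P e) y = mx (P e) y₁ + (y - y₁)) := by
      intro e he
      exact mx_kink (P e) hy fun z hz' => hz z (Finset.mem_biUnion.2 ⟨e, he, hz'⟩)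
    refine ⟨fun e => if e = q then true else if e = nu then false else
      if (∀ y, y₁ ≤ y → y ≤ y₂ → mx (P e) y = mx (P e) y₁) then false else true, ?_, ?_, ?_⟩
    · have : nu ≠ q := fun h => hS.2.2.1 h.symm
      simp [this]
    · simp
    · intro e he y h1 h2
      by_cases heq : e = q
      · simp [heq]
      · by_cases hen : e = nu
        · have hnq : nu ≠ q := fun h => hS.2.2.1 h.symm
          simp [hen, hnq]
        · have heX : e ∈ X := by
            rw [Finset.mem_insert, Finset.mem_insert] at he
            tauto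
          simp only [heq, hen, if_false]
          by_cases hc : ∀ y, y₁ ≤ y → y ≤ y₂ → mx (P e) y = mx (P e) y₁
          · rw [if_pos hc]
            simp only [Bool.false_eq_true, if_false, add_zero]
            exact hc y h1 h2
          · rw [if_neg hc]
            simp only [if_true]
            rcases hdich e heX with h3 | h3
            · exact absurd h3 hc
            · exact h3 y h1 h2
  · intro t w M ε x hW hε hε1 hM hB hx e he
    have hW' := hW
    obtain ⟨w1, w2, w3, w4, w5, w6, w7⟩ := hW
    have hK2 : (2 : ℝ) ≤ K := by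
      have : 2 ≤ K := by omega
      exact_mod_cast this
    have hKpos : 1 ≤ (K : ℝ) ^ 2 * (1 + M) / ε := by
      rw [le_div_iff₀ hε]
      nlinarith
    have hext : 0 ≤ (r : ℝ) + Real.logb 2 (K ^ 2 * (1 + M) / ε) := by
      have := Real.logb_nonneg (b := 2) (by norm_num) hKpos
      positivity
    by_cases heq : e = q
    · subst heq
      simp only [if_true]
      rw [w6]
      exact ⟨le_rfl, by linarith⟩
    · by_cases hen : e = nu
      · subst hen
        simp only [heq, if_false, if_true]
        rw [w7, Real.logb_one]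
        exact ⟨le_rfl, by linarith⟩
      · have heX : e ∈ X := by
          rw [Finset.mem_insert, Finset.mem_insert] at he
          tauto
        have hwe := w5 e heX
        simp only [heq, hen, if_false]
        have hXc : 0 < (X.card : ℝ) := by
          have : 0 < X.card := Finset.card_pos.2 ⟨e, heX⟩
          exact_mod_cast this
        have hXK : (X.card : ℝ) ≤ K := by
          have : X.card ≤ K := by omega
          exact_mod_cast this
        obtain ⟨hF1, hF2⟩ := hD2 e heX
        -- the decomposition of `x`
        obtain ⟨x1, x2, x3, x4⟩ := hx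
        have hx0 : ∀ c ∈ X, 0 ≤ x c := by
          intro c hc
          have h1 := x2 c hc
          have h2 := w5 c hc
          have h3 : 0 < ε * w c := by positivity
          linarith
        obtain ⟨v, l, hl, hsum, hsnu, hsq⟩ := t_DECO Ls X q nu x hS x1 hx0
        have hxe : ε * w e ≤ x e := x2 e heX
        -- some elementary vector is nonzero at `e`
        have hsome : ∃ i ∈ Finset.range X.card, l i ≠ 0 ∧ v i e ≠ 0 := by
          by_contra hcon
          push Not at hcon
          have h1 : x e = 0 := by
            rw [hsum e heX]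
            refine Finset.sum_eq_zero fun i hi => ?_
            by_cases h : l i = 0
            · rw [h, zero_mul]
            · rw [hcon i hi h, mul_zero]
          have h3 : 0 < ε * w e := by positivity
          linarith
        have hPne : (P e).Nonempty := by
          obtain ⟨i, hi, hli, hvi⟩ := hsome
          obtain ⟨k, hk, -⟩ := hF2 (v i) ((hl i (Finset.mem_range.1 hi)).2 hli) hvi
          exact ⟨_, Finset.mem_image_of_mem pk hk⟩
        have hmx : ∀ y, mx (P e) y = (P e).sup' hPne (fun k => pc k y) := by
          intro y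
          simp only [mx, hPne, dif_pos]
        constructor
        · rw [hmx]
          apply Finset.sup'_le
          intro k' hk'
          obtain ⟨k, hk, rfl⟩ := Finset.mem_image.1 hk'
          obtain ⟨h1, h2, z, hz, hz0, hzn, hze, hzq⟩ := hF1 k hk
          exact low hW' hB heX h1 h2 hz hz0 hzn hze hzq
        · -- upper bound
          set Fv : ℝ := mx (P e) (Real.logb 2 t) with hFv
          have h2F : 0 < (2 : ℝ) ^ Fv := Real.rpow_pos_of_pos two_pos _
          have hM0 : 0 < 1 + M := by linarith
          -- bounds of `l`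
          have hlnn : ∀ i ∈ Finset.range X.card, 0 ≤ l i :=
            fun i hi => (hl i (Finset.mem_range.1 hi)).1
          have hl1 : ∑ i ∈ Finset.range X.card, l i ≤ 1 := by
            rw [← hsnu]; linarith
          have hneg : ∀ i ∈ Finset.range X.card, l i ≠ 0 → max (v i q) 0 ≤ v i q + M * t := by
            intro i hi hli
            have hel := (hl i (Finset.mem_range.1 hi)).2 hli
            by_cases h0 : 0 ≤ v i q
            · rw [max_eq_left h0]
              have : 0 ≤ M * t := by positivity
              linarith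
            · push Not at h0
              rw [max_eq_right h0.le]
              have h4 : v i ∈ Sl Ls X q nu t := ⟨hel.1, hel.2.1, hel.2.2.1.le, by linarith⟩
              have := (hB _ h4).2.1
              linarith
          have hlq : ∀ i ∈ Finset.range X.card, l i * max (v i q) 0 ≤ (1 + M) * t := by
            intro i hi
            have h4 : l i * max (v i q) 0 ≤ ∑ j ∈ Finset.range X.card, l j * max (v j q) 0 :=
              Finset.single_le_sum (f := fun j => l j * max (v j q) 0)
                (fun j hj => mul_nonneg (hlnn j hj) (le_max_right _ _)) hi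
            have h5 : ∑ j ∈ Finset.range X.card, l j * max (v j q) 0 ≤
                ∑ j ∈ Finset.range X.card, (l j * v j q + l j * (M * t)) := by
              refine Finset.sum_le_sum fun j hj => ?_
              by_cases h : l j = 0
              · rw [h]; simp
              · have := mul_le_mul_of_nonneg_left (hneg j hj h) (hlnn j hj)
                linarith
            rw [Finset.sum_add_distrib, ← hsq, ← Finset.sum_mul] at h5
            have h6 : (∑ j ∈ Finset.range X.card, l j) * (M * t) ≤ 1 * (M * t) := by
              gcongr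
            have h7 : x q ≤ t := by nlinarith
            linarith
          have hterm : ∀ i ∈ Finset.range X.card, l i * v i e ≤
              (1 + M) * 2 ^ r * 2 ^ Fv := by
            intro i hi
            by_cases hli : l i = 0
            · rw [hli, zero_mul]; positivity
            by_cases hvi : v i e = 0
            · rw [hvi, mul_zero]; positivity
            obtain ⟨k, hk, hk1, hk2⟩ := hF2 (v i) ((hl i (Finset.mem_range.1 hi)).2 hli) hvi
            obtain ⟨ha, hg, -⟩ := hF1 k hk
            have h4 := Finset.le_sup' (fun k => pc k (Real.logb 2 t))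
              (Finset.mem_image_of_mem pk hk)
            rw [← hmx, ← hFv] at h4
            have hl0 := hlnn i hi
            have hli1 : l i ≤ 1 := (Finset.single_le_sum hlnn hi).trans hl1
            have hbig : k.1 ≤ 2 ^ Fv → l i * v i e ≤ (1 + M) * 2 ^ r * 2 ^ Fv := by
              intro h5
              calc l i * v i e ≤ 1 * (2 ^ r * 2 ^ Fv) := by
                    refine mul_le_mul hli1 (hk1.trans ?_)
                      ((hl i (Finset.mem_range.1 hi)).2 hli |>.2.1 e heX) zero_le_one
                    gcongr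
                _ ≤ (1 + M) * (2 ^ r * 2 ^ Fv) := by gcongr; linarith
                _ = (1 + M) * 2 ^ r * 2 ^ Fv := by ring
            by_cases hg0 : k.2 = 0
            · apply hbig
              rw [pk, pc, if_pos hg0] at h4
              rw [← Real.logb_le_iff_le_rpow (by norm_num) ha]
              exact h4
            · have hgp : 0 < k.2 := lt_of_le_of_ne hg (Ne.symm hg0)
              rw [pk, pc, if_neg hg0] at h4
              rcases min_le_iff.1 h4 with h5 | h5
              · apply hbig
                rw [← Real.logb_le_iff_le_rpow (by norm_num) ha]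
                exact h5
              · have h3 : Real.logb 2 t + (Real.logb 2 k.1 - Real.logb 2 k.2) =
                    Real.logb 2 (t * k.1 / k.2) := by
                  rw [Real.logb_div (by positivity) hg0, Real.logb_mul w4.ne' ha.ne']
                  ring
                rw [h3, Real.logb_le_iff_le_rpow (by norm_num) (by positivity),
                  div_le_iff₀ hgp] at h5
                have h6 := hlq i hi
                have h7 : (l i * v i e) * k.2 ≤ ((1 + M) * 2 ^ r * 2 ^ Fv) * k.2 := by
                  calc (l i * v i e) * k.2 = l i * (v i e * k.2) := by ring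
                    _ ≤ l i * (2 ^ r * k.1 * max (v i q) 0) := by gcongr
                    _ = 2 ^ r * k.1 * (l i * max (v i q) 0) := by ring
                    _ ≤ 2 ^ r * k.1 * ((1 + M) * t) := by gcongr
                    _ = (1 + M) * 2 ^ r * (t * k.1) := by ring
                    _ ≤ (1 + M) * 2 ^ r * (2 ^ Fv * k.2) := by gcongr
                    _ = ((1 + M) * 2 ^ r * 2 ^ Fv) * k.2 := by ring
                exact le_of_mul_le_mul_right h7 hgp
          have hxe2 : x e ≤ X.card * ((1 + M) * 2 ^ r * 2 ^ Fv) := by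
            rw [hsum e heX]
            calc ∑ i ∈ Finset.range X.card, l i * v i e
                ≤ (Finset.range X.card).card • ((1 + M) * 2 ^ r * 2 ^ Fv) :=
                  Finset.sum_le_card_nsmul _ _ _ hterm
              _ = X.card * ((1 + M) * 2 ^ r * 2 ^ Fv) := by
                  rw [Finset.card_range, nsmul_eq_mul]
          have hwle : w e ≤ (K ^ 2 * (1 + M) / ε) * (2 ^ r * 2 ^ Fv) := by
            have h8 : ε * w e ≤ K ^ 2 * (1 + M) * (2 ^ r * 2 ^ Fv) := by
              refine (hxe.trans hxe2).trans ?_
              have h9 : (X.card : ℝ) * ((1 + M) * 2 ^ r * 2 ^ Fv) =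
                  (X.card : ℝ) * (1 + M) * (2 ^ r * 2 ^ Fv) := by ring
              have h10 : (X.card : ℝ) ≤ K ^ 2 := by nlinarith
              rw [h9]
              gcongr
            rw [div_mul_eq_mul_div, le_div_iff₀ hε]
            linarith
          have hpos : 0 < (K : ℝ) ^ 2 * (1 + M) / ε := by positivity
          have h10 := Real.logb_le_logb_of_le (b := 2) (by norm_num) hwe hwle
          rw [Real.logb_mul hpos.ne' (by positivity), Real.logb_mul (by positivity) h2F.ne',
            Real.logb_rpow (by norm_num) (by norm_num)] at h10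
          have h11 : Real.logb 2 ((2 : ℝ) ^ r) = r := by
            rw [← Real.rpow_natCast, Real.logb_rpow (by norm_num) (by norm_num)]
          rw [h11] at h10
          linarith

end Pool.Agent.L7h39.VS
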