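import Pool.Agent.Y648.CW.All
import Pool.Agent.L7h39.VS.Dom

set_option autoImplicit false

/-!
# The number of steps if few points dominate all elementary vectors (adapted from
`Pool/Agent/Y648/CW/T_CUTC.lean`)
-/

namespace Pool.Agent.L7h39.VS

open Pool.Agent.NPC Pool.Agent.H558R2 Pool.Agent.H622R3.SM Pool.Agent.W920.FC
open Pool.Agent.Y648.CS Pool.Agent.Y648.CS.W Pool.Agent.Y648.CS.TCUTC

/-- The number of steps. -/
def S_CUTD : Prop := ∃ q : Polynomial ℕ, ∀ (m n p r : ℕ) (g : Reg → ℝ) (drop : List Bool)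
  (T : ℕ → ℝ) (M : ℕ), Dom r (Lsp m n p g drop) (Xc m drop) (m + m) (m + m + 1) →
  (∀ i < M, Cut m n p g drop (T i) (T (i + 1))) → M < q.eval (m + n + r)

theorem t_CUTD : S_CUTD := by
  have hLSP := t_LSP
  have hGRD := t_GRD
  have hGRV := t_GRV t_GRD
  have hCNT := Pool.Agent.Y721.CS.t_CNT
  refine ⟨40000 * (Polynomial.X + 4) ^ 9, ?_⟩
  intro m n p r g drop T M hSc hcut
  obtain ⟨l1, l2, l3, l4, l5, l6, l7⟩ := hLSP m n p g drop
  obtain ⟨Z, F, z1, z2, z3⟩ := fsd (Lsp m n p g drop) (Xc m drop) (m + m) (m + m + 1)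
    r (m + m + 2) l1 l3 hSc
  have hch : ∀ i, ∃ (w : ℕ → ℝ) (β : Fin (n + 2) → ℕ) (x : ℕ → ℝ), i < M →
      Wts (Xc m drop) (m + m) (m + m + 1) (T i) w ∧
      Bds (Lsp m n p g drop) (Xc m drop) (m + m) (m + m + 1) (T i) w (MR m n) ∧
      Cen (Lsp m n p g drop) (Xc m drop) (m + m) (m + m + 1) (T i) w (epR m n) x ∧
      Greedy (cl m n p g) (un m n) (Acs m drop) w β ∧ 0 < T (i + 1) ∧ 2 * T (i + 1) ≤ T i ∧
      ∀ σ : ℕ → Bool, σ (m + m + 1) = false → σ (m + m) = true →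
        ∃ k, β k ∈ Acs m drop ∧ ∃ c ∈ Acs m drop, (∀ l, β l ≠ c) ∧ σ (β k) ≠ σ c ∧
        (|cdet (cl m n p g) β| * w (β k) ≤
            2 ^ cC m n * (|cdet (cl m n p g) (Function.update β k c)| * w c) ∨
          (σ (β k) = true ∧ σ c = false ∧ |cdet (cl m n p g) β| * w (β k) * (T (i + 1) / T i) ≤
            2 ^ cC m n * (|cdet (cl m n p g) (Function.update β k c)| * w c))) := by
    intro i
    by_cases hi : i < M
    · obtain ⟨w, β, x, h⟩ := hcut i hi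
      exact ⟨w, β, x, fun _ => h⟩
    · exact ⟨fun _ => 0, fun _ => 0, fun _ => 0, fun h => absurd h hi⟩
  choose w β x h using hch
  have hep : 0 < epR m n := by unfold epR; positivity
  have hep1 : epR m n ≤ 1 := by
    unfold epR
    exact pow_le_one₀ (by norm_num) (by norm_num)
  have hMR : 1 ≤ MR m n := by
    unfold MR
    exact one_le_pow₀ (by norm_num)
  obtain ⟨C, hCd⟩ : ∃ C : ℝ, C = ((r : ℕ) : ℝ) +
      Real.logb 2 (((m + m + 2 : ℕ) : ℝ) ^ 2 * (1 + MR m n) / epR m n) := ⟨_, rfl⟩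
  have hC0 : 0 ≤ C := by
    have h1 : 0 ≤ Real.logb 2 (((m + m + 2 : ℕ) : ℝ) ^ 2 * (1 + MR m n) / epR m n) := by
      refine Real.logb_nonneg (by norm_num) ?_
      rw [le_div_iff₀ hep]
      have h2 : (1 : ℝ) ≤ ((m + m + 2 : ℕ) : ℝ) ^ 2 := by
        refine one_le_pow₀ ?_
        exact_mod_cast (by omega : 1 ≤ m + m + 2)
      nlinarith
    rw [hCd]
    positivity
  have hcore := core hGRD hGRV hCNT (cl m n p g) (un m n) (Acs m drop) l4 (m + m) (m + m + 1)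
    Z F z2 C hC0 (cC m n) M T w β (by
      intro i hi
      obtain ⟨h1, h2, h3, h4, h5, h6, h7⟩ := h i hi
      refine ⟨?_, h4, ?_, h5, h6, h7⟩
      · intro c hc
        obtain ⟨_, _, _, t1, t2, t3, t4⟩ := h1
        rcases Finset.mem_insert.1 hc with rfl | hc
        · rw [t3]; exact t1
        · rcases Finset.mem_insert.1 hc with rfl | hc
          · rw [t4]; exact one_pos
          · exact t2 c hc
      · rw [hCd]
        exact z3 (T i) (w i) (MR m n) (epR m n) (x i) h1 hep hep1 hMR h2 h3)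
  obtain ⟨s, hs⟩ : ∃ s : ℝ, s = (m : ℝ) + n + r + 4 := ⟨_, rfl⟩
  have hm0 : (0 : ℝ) ≤ m := Nat.cast_nonneg _
  have hn0 : (0 : ℝ) ≤ n := Nat.cast_nonneg _
  have hr0 : (0 : ℝ) ≤ r := Nat.cast_nonneg _
  have hcC : (cC m n : ℝ) ≤ 1024 * s ^ 2 := by
    have h1 : (cC m n : ℝ) = 64 * ((cD m n : ℝ) * (cD m n : ℝ)) := by
      unfold cC
      push_cast
      rfl
    have h2 : ((cD m n : ℕ) : ℝ) ≤ 4 * s := by
      have h1 : cD m n = 4 * m + n + 12 := by unfold cD cK; omega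
      rw [h1, hs]
      push_cast
      linarith
    have h3 : (0 : ℝ) ≤ (cD m n : ℝ) := Nat.cast_nonneg _
    rw [h1]
    generalize (cD m n : ℝ) = d at h2 h3
    nlinarith
  have hc0 : (0 : ℝ) ≤ (cC m n : ℝ) := Nat.cast_nonneg _
  have hD0 : 0 ≤ Real.logb 2 (((n + 2).factorial : ℝ) * 2 ^ ((n + 2) * (n + 2))) := by
    refine Real.logb_nonneg (by norm_num) ?_
    have h1 : (1 : ℝ) ≤ (n + 2).factorial := by
      exact_mod_cast Nat.one_le_iff_ne_zero.2 (n + 2).factorial_ne_zero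
    have h2 : (1 : ℝ) ≤ 2 ^ ((n + 2) * (n + 2)) := one_le_pow₀ (by norm_num)
    exact one_le_mul_of_one_le_of_one_le h1 h2
  have hZb : (Z.card : ℝ) ≤ 8 * s ^ 5 := by
    have e1 : (Z.card : ℝ) ≤ ((m + m + 2 : ℕ) : ℝ) * (((m + m + 2 : ℕ) : ℝ) * (r : ℝ)) ^ 2 := by
      exact_mod_cast z1
    have hKs : ((m + m + 2 : ℕ) : ℝ) ≤ 2 * s := by
      rw [hs]
      push_cast
      linarith
    have hrs : (r : ℝ) ≤ s := by linarith
    have hs0 : 0 ≤ s := by linarith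
    have e2 : ((m + m + 2 : ℕ) : ℝ) * (((m + m + 2 : ℕ) : ℝ) * (r : ℝ)) ^ 2 ≤
        (2 * s) * ((2 * s) * s) ^ 2 := by
      gcongr
    have e3 : (2 * s) * ((2 * s) * s) ^ 2 = 8 * s ^ 5 := by ring
    linarith
  generalize (cC m n : ℝ) = c₁ at hcC hc0 hcore
  have hnum := totalW s Z.card ((n + 2 : ℕ) : ℝ) C _ c₁ (by linarith) (Nat.cast_nonneg _)
    (Nat.cast_nonneg _) hC0 hD0 hc0 (by push_cast; linarith)
    (by rw [hCd]; exact C_leW m n r s hs) (by
      refine D_le (n + 2) s ?_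
      push_cast
      linarith) hcC hZb
  have hfin := hcore.trans_lt hnum
  have hq : (((40000 * (Polynomial.X + 4) ^ 9 : Polynomial ℕ).eval (m + n + r) : ℕ) : ℝ) =
      40000 * s ^ 9 := by
    simp only [Polynomial.eval_mul, Polynomial.eval_pow, Polynomial.eval_add,
      Polynomial.eval_X, Polynomial.eval_ofNat]
    rw [hs]
    push_cast
    ring
  rw [← hq] at hfin
  exact_mod_cast hfin

end Pool.Agent.L7h39.VS
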