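import Pool.Agent.L7h39.VS.Leo

set_option autoImplicit false

/-!
# More time does not change the result of a run; monotonicity of the conditions; polynomials
-/

namespace Pool.Agent.L7h39.VS

open Pool.Agent.H558R2 Pool.Agent.H622R3.SM

open Classical in
theorem run_mono (O : Set (List Bool)) (β : List Outcome → List Instr × Test) :
    ∀ (k : ℕ) (h : List Outcome) (ρ : Reg → ℝ) (x : Bool × List ℝ × ℕ),
      run O β k h ρ = some x → ∀ k', k ≤ k' → run O β k' h ρ = some x := by
  intro k
  induction k with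
  | zero => intro h ρ x hx; simp [run] at hx
  | succ k ih =>
    intro h ρ x hx k' hk'
    obtain ⟨k', rfl⟩ : ∃ j, k' = j + 1 := ⟨k' - 1, by omega⟩
    rw [run] at hx ⊢
    cases h1 : exec (β h).1 ρ with
    | none => rw [h1] at hx; simp at hx
    | some r =>
      rw [h1] at hx
      simp only [Option.bind_some] at hx ⊢
      cases h2 : (β h).2 with
      | answer a => rw [h2] at hx; exact hx
      | sign y =>
        rw [h2] at hx
        simp only at hx ⊢
        cases h3 : run O β k (h ++ [signOut (r.1 y)]) r.1 with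
        | none => rw [h3] at hx; simp at hx
        | some z =>
          rw [h3] at hx
          rw [ih _ _ _ h3 k' (by omega)]
          exact hx
      | ask w =>
        rw [h2] at hx
        simp only at hx ⊢
        cases h3 : run O β k (h ++ [some (decide (w ∈ O))]) r.1 with
        | none => rw [h3] at hx; simp at hx
        | some z =>
          rw [h3] at hx
          rw [ih _ _ _ h3 k' (by omega)]
          exact hx

theorem Start.mono {r r' m n : ℕ} {A : Matrix (Fin m) (Fin n) ℝ} (h : Start r A)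
    (hr : r ≤ r') : Start r' A := by
  intro i
  rcases h i with ⟨y, h1, h2, h3, h4⟩ | ⟨S, S', h1, h2, h3⟩
  · left
    refine ⟨y, h1, h2, h3, h4.trans ?_⟩
    exact mul_le_mul_of_nonneg_right (pow_le_pow_right₀ (by norm_num) hr) (h1 i)
  · right
    refine ⟨S, S', h1.trans hr, h2.trans hr, fun C hC hCi => ?_⟩
    rcases h3 C hC hCi with h4 | h4 | h4
    · exact Or.inl (h4.mono hr (Finset.Subset.refl _))
    · exact Or.inr (Or.inl h4)
    · exact Or.inr (Or.inr (h4.mono hr (Finset.Subset.refl _)))

/-- The polynomial bounding all arguments. -/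
noncomputable def TT : Polynomial ℕ :=
  (1 + Polynomial.X) + (3 * (2 * (2 * Polynomial.X + 1) + Polynomial.X +
    (2 * Polynomial.X + 2) * (Polynomial.X * (2 * Polynomial.X + 1) + 1)) + 3)

theorem TT_eval (x : ℕ) : TT.eval x =
    (1 + x) + (3 * (2 * (2 * x + 1) + x + (2 * x + 2) * (x * (2 * x + 1) + 1)) + 3) := by
  simp [TT]

theorem rV_le {r l x : ℕ} (hr : r ≤ 2 * x + 1) (hl : l ≤ x) :
    rV r l ≤ 2 * (2 * x + 1) + x + (2 * x + 2) * (x * (2 * x + 1) + 1) := by
  unfold rV
  have h1 : (r + 1) * (l * r + 1) ≤ (2 * x + 2) * (x * (2 * x + 1) + 1) :=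
    Nat.mul_le_mul (by omega) (Nat.add_le_add_right (Nat.mul_le_mul hl hr) 1)
  omega

theorem TT_le1 (m n r : ℕ) : m + n + (3 * r + 3) ≤ TT.eval (m + n + r) := by
  rw [TT_eval]
  have := Nat.zero_le ((2 * (m + n + r) + 2) * ((m + n + r) * (2 * (m + n + r) + 1) + 1))
  omega

theorem TT_le2 (k l r R : ℕ) (hR : R ≤ 2 * (k + l + r) + 1) :
    l + 1 + k + (3 * rV R l + 3) ≤ TT.eval (k + l + r) := by
  rw [TT_eval]
  have := rV_le hR (show l ≤ k + l + r by omega)
  omega

end Pool.Agent.L7h39.VS
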