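import Pool.Agent.L7h39.VS.Std

set_option autoImplicit false

/-!
# Leontief systems
-/

namespace Pool.Agent.L7h39.VS

open Matrix

/-- Leontief systems: every column has exactly one positive entry, equal to `1`; the right-hand side
is at least `2 ^ (-r)`; the feasible set is contained in `[0, 2 ^ r]`, and it contains a point with
coordinates at least `2 ^ (-r)`. -/
structure Leon (r : ℕ) {k l : ℕ} (D : Matrix (Fin k) (Fin l) ℝ) (d : Fin k → ℝ) : Prop where
  col : ∀ j, ∃ i, D i j = 1 ∧ ∀ t, t ≠ i → D t j ≤ 0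
  rhs : ∀ i, 1 ≤ 2 ^ r * d i
  cen : ∃ z ∈ Pol D d, ∀ j, 1 ≤ 2 ^ r * z j
  bdd : ∀ z ∈ Pol D d, ∀ j, z j ≤ 2 ^ r

/-- The columns of the support of a vertex are linearly independent. -/
theorem card_supp {k l : ℕ} (D : Matrix (Fin k) (Fin l) ℝ) (d : Fin k → ℝ) (z : Fin l → ℝ)
    (hz : z ∈ (Pol D d).extremePoints ℝ) :
    (Finset.univ.filter fun j => z j ≠ 0).card ≤ k := by
  classical
  by_contra hcon
  push Not at hcon
  set T := Finset.univ.filter fun j => z j ≠ 0 with hT
  have hTne : T.Nonempty := Finset.card_pos.1 (by omega)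
  have hker : LinearMap.ker (D.submatrix id (fun j : T => (j : Fin l))).mulVecLin ≠ ⊥ := by
    apply LinearMap.ker_ne_bot_of_finrank_lt
    rw [Module.finrank_fintype_fun_eq_card, Module.finrank_fintype_fun_eq_card, Fintype.card_fin,
      Fintype.card_coe]
    exact hcon
  obtain ⟨u, hu, hu0⟩ := (Submodule.ne_bot_iff _).1 hker
  rw [LinearMap.mem_ker, Matrix.mulVecLin_apply] at hu
  set w : Fin l → ℝ := fun j => if h : j ∈ T then u ⟨j, h⟩ else 0 with hw
  have hwD : D.mulVec w = 0 := by
    funext i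
    have h1 := congrFun hu i
    have h2 : ∑ j : T, D i j * u j = 0 := h1
    show ∑ j, D i j * w j = 0
    rw [← h2, ← Finset.sum_subset (Finset.subset_univ T), ← Finset.sum_coe_sort T]
    · refine Finset.sum_congr rfl fun j _ => ?_
      rw [hw]
      simp only [j.2, dif_pos]
    · intro j _ hj
      rw [hw]
      simp only [hj, dif_neg, not_false_eq_true, mul_zero]
  have hw0 : w ≠ 0 := by
    intro h0
    apply hu0
    funext j
    have h1 := congrFun h0 (j : Fin l)
    rw [hw] at h1
    simp only [j.2, dif_pos] at h1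
    exact h1
  have hzP : z ∈ Pol D d := hz.1
  obtain ⟨j₀, hj₀, hmin⟩ := Finset.exists_min_image T z hTne
  have hj₀' : z j₀ ≠ 0 := (Finset.mem_filter.1 hj₀).2
  have hμ : 0 < z j₀ := lt_of_le_of_ne (hzP.1 j₀) (Ne.symm hj₀')
  set W := 1 + ∑ j, |w j| with hW
  have hW0 : 0 < W := by
    have : 0 ≤ ∑ j, |w j| := Finset.sum_nonneg fun j _ => abs_nonneg _
    linarith
  have hwW : ∀ j, |w j| ≤ W := fun j => by
    have : |w j| ≤ ∑ j, |w j| :=
      Finset.single_le_sum (f := fun j => |w j|) (fun c _ => abs_nonneg _) (Finset.mem_univ j)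
    linarith
  set ε := z j₀ / W with hε
  have hε0 : 0 < ε := div_pos hμ hW0
  have hb : ∀ j, |ε * w j| ≤ z j := by
    intro j
    by_cases hj : j ∈ T
    · rw [abs_mul, abs_of_pos hε0]
      calc ε * |w j| ≤ ε * W := mul_le_mul_of_nonneg_left (hwW j) hε0.le
        _ = z j₀ := by rw [hε]; field_simp
        _ ≤ z j := hmin j hj
    · have : w j = 0 := by
        rw [hw]
        simp only [hj, dif_neg, not_false_eq_true]
      rw [this, mul_zero, abs_zero]
      exact hzP.1 j
  have hP : ∀ c : ℝ, (c = 1 ∨ c = -1) → z + (c * ε) • w ∈ Pol D d := by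
    intro c hc
    refine ⟨fun j => ?_, ?_⟩
    · show 0 ≤ z j + c * ε * w j
      have h1 := abs_le.1 (hb j)
      rcases hc with rfl | rfl
      · linarith [h1.1]
      · linarith [h1.2]
    · rw [Matrix.mulVec_add, Matrix.mulVec_smul, hwD, smul_zero, add_zero]
      exact hzP.2
  have h1 := (mem_extremePoints.1 hz).2 _ (hP 1 (Or.inl rfl)) _ (hP (-1) (Or.inr rfl)) (by
    refine ⟨1 / 2, 1 / 2, by norm_num, by norm_num, by norm_num, ?_⟩
    funext j
    show 1 / 2 * (z j + 1 * ε * w j) + 1 / 2 * (z j + -1 * ε * w j) = z j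
    ring)
  apply hw0
  funext j
  have h2 := congrFun h1.1 j
  have h3 : z j + 1 * ε * w j = z j := h2
  have h4 : ε * w j = 0 := by linarith
  exact (mul_eq_zero.1 h4).resolve_left hε0.ne'

theorem leon_ok {r k l : ℕ} {D : Matrix (Fin k) (Fin l) ℝ} {d : Fin k → ℝ} (h : Leon r D d) :
    PolOK (2 * r + 1) D d := by
  classical
  have h2r : (1 : ℝ) ≤ 2 ^ r := one_le_pow₀ (by norm_num)
  have hle : (2 : ℝ) ^ r ≤ 2 ^ (2 * r + 1) := pow_le_pow_right₀ (by norm_num) (by omega)
  choose s hs1 hs2 using h.col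
  refine ⟨⟨2 ^ r, h.bdd⟩, ?_, ?_⟩
  · obtain ⟨z, hz, hz1⟩ := h.cen
    refine ⟨z, hz, fun j => ⟨?_, (h.bdd z hz j).trans hle⟩⟩
    have h0 : 0 ≤ z j := hz.1 j
    exact (hz1 j).trans (mul_le_mul_of_nonneg_right hle h0)
  · intro j
    refine ⟨{(2 ^ r)⁻¹}, by simp, fun z hz hzj => ?_⟩
    have hzP : z ∈ Pol D d := hz.1
    set T := Finset.univ.filter fun j => z j ≠ 0 with hT
    have hrow : ∀ i, ∑ j', D i j' * z j' = d i := fun i => congrFun hzP.2 i
    have hdpos : ∀ i, 0 < d i := by
      intro i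
      have := h.rhs i
      by_contra hcon
      push Not at hcon
      nlinarith
    have hsurj : ∀ i, ∃ j' ∈ T, s j' = i := by
      intro i
      by_contra hcon
      push Not at hcon
      have h1 : ∑ j', D i j' * z j' ≤ 0 := by
        refine Finset.sum_nonpos fun j' _ => ?_
        by_cases h2 : z j' = 0
        · rw [h2, mul_zero]
        · have h3 : s j' ≠ i := hcon j' (by rw [hT]; simp [h2])
          exact mul_nonpos_of_nonpos_of_nonneg (hs2 j' i (Ne.symm h3)) (hzP.1 j')
      rw [hrow] at h1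
      exact absurd (hdpos i) (not_lt.2 h1)
    have himg : T.image s = Finset.univ := by
      ext i
      simp only [Finset.mem_image, Finset.mem_univ, iff_true]
      exact hsurj i
    have hcard : (T.image s).card = T.card := by
      apply le_antisymm Finset.card_image_le
      rw [himg, Finset.card_univ, Fintype.card_fin]
      exact card_supp D d z hz
    have hinj := Finset.card_image_iff.1 hcard
    have hjT : j ∈ T := by rw [hT]; simp [hzj]
    have hge : d (s j) ≤ z j := by
      rw [← hrow (s j), ← Finset.add_sum_erase _ _ (Finset.mem_univ j), hs1 j, one_mul]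
      have : ∑ j' ∈ Finset.univ.erase j, D (s j) j' * z j' ≤ 0 := by
        refine Finset.sum_nonpos fun j' hj' => ?_
        by_cases h2 : z j' = 0
        · rw [h2, mul_zero]
        · have h3 : s j ≠ s j' := by
            intro h4
            exact (Finset.mem_erase.1 hj').1
              (hinj (by rw [hT]; simp [h2]) hjT h4.symm)
          exact mul_nonpos_of_nonpos_of_nonneg (hs2 j' _ h3) (hzP.1 j')
      linarith
    refine ⟨(2 ^ r)⁻¹, Finset.mem_singleton_self _, by positivity, ?_, ?_⟩
    · refine le_trans ?_ hge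
      rw [inv_le_iff_one_le_mul₀ (by positivity), mul_comm]
      exact h.rhs _
    · refine (h.bdd z hzP j).trans ?_
      have e1 : (2 : ℝ) ^ (2 * r + 1) * (2 ^ r)⁻¹ = 2 ^ (r + 1) := by
        rw [show 2 * r + 1 = r + (r + 1) by ring, pow_add]
        field_simp
      rw [e1]
      exact pow_le_pow_right₀ (by norm_num) (by omega)

end Pool.Agent.L7h39.VS
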