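import Pool.Agent.L7h39.VS.Run
import Pool.Agent.L7h39.VS.Cls
import Pool.Agent.H622R3.SM.T_FARKAS

set_option autoImplicit false

/-!
# Few scales of the vertices: the two phases, and linear programs in standard form
-/

namespace Pool.Agent.L7h39.VS

open Matrix Pool.Agent.NPC Pool.Agent.H558R2 Pool.Agent.H622R3.SM Pool.Agent.Y648.CS
  Pool.Agent.Y721.CS Pool.Agent.Y529.CS

/-- The first phase is short. -/
def Start (r : ℕ) {m n : ℕ} (A : Matrix (Fin m) (Fin n) ℝ) : Prop := ∀ i,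
  (∃ y : Fin m → ℝ, 0 ≤ y ∧ A.vecMul y = 0 ∧ ∑ j, y j = 1 ∧ 1 ≤ 2 ^ r * y i) ∨
  ∃ S S' : Finset ℝ, S.card ≤ r ∧ S'.card ≤ r ∧ ∀ C, Circ A C → 0 < C i →
    Near r S (C i / mass C) ∨ neg C = 0 ∨ Near r S' (neg C / mass C)

/-- The second phase is short. -/
def Vert (r : ℕ) {m n : ℕ} (A : Matrix (Fin m) (Fin n) ℝ) (b : Fin m → ℝ) : Prop := ∀ i,
  ∃ S S' : Finset ℝ, S.card ≤ r ∧ S'.card ≤ r ∧ ∀ C, Circ A C → 0 ≤ C → 0 < C i →
    Near r S (C i / mass C) ∨ 0 ≤ b ⬝ᵥ C ∨ Near r S' (-(b ⬝ᵥ C) / mass C)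

theorem vecMul_zero_iff {m n : ℕ} (A : Matrix (Fin m) (Fin n) ℝ) (y : Fin m → ℝ) :
    A.vecMul y = 0 ↔ ∀ i, ∑ c, A c i * y c = 0 := by
  rw [funext_iff]
  refine forall_congr' fun i => ?_
  show ∑ c, y c * A c i = 0 ↔ _
  rw [Finset.sum_congr rfl fun c _ => mul_comm (y c) (A c i)]

theorem dom0 {r m n : ℕ} (A : Matrix (Fin m) (Fin n) ℝ) (b : Fin m → ℝ) (h : Start r A) :
    Dom (3 * r + 3) (Lsp m n 0 (start A b) (dr0 m)) (Xc m (dr0 m)) (m + m) (m + m + 1) := by
  classical
  intro e he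
  change DomE (3 * r + 3) _ _ _ _ e
  have hS := (t_LSP m n 0 (start A b) (dr0 m)).1
  have he' := he
  rw [Xc0, Finset.mem_range] at he'
  rcases lt_cases' he' with ⟨i, rfl⟩ | ⟨i, rfl⟩
  · rcases h i with ⟨y, hy0, hyA, hy1, hyi⟩ | ⟨S, S', h1, h2, h3⟩
    · -- a nonnegative vector with a large entry
      refine ⟨{(y i, 0)}, ?_, ?_, ?_⟩
      · rw [Finset.card_singleton]
        omega
      · intro k hk
        rw [Finset.mem_singleton] at hk
        subst hk
        have hyp : 0 < y i := by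
          by_contra hcon
          have : y i = 0 := le_antisymm (not_lt.1 hcon) (hy0 i)
          rw [this, mul_zero] at hyi
          linarith
        refine ⟨hyp, le_rfl, mk2 y 0 0 1, ?_, ?_, ?_, ?_, ?_⟩
        · rw [mem_Lsp0]
          refine ⟨fun j => ?_, ?_, ?_⟩
          · simp only [mk2_l, mk2_r, Pi.zero_apply, sub_zero]
            exact (vecMul_zero_iff A y).1 hyA j
          · simp
          · simp [hy1]
        · intro c hc
          rw [Xc0, Finset.mem_range] at hc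
          rcases lt_cases' hc with ⟨d, rfl⟩ | ⟨d, rfl⟩
          · rw [mk2_l]
            exact hy0 d
          · rw [mk2_r]
            exact le_rfl
        · rw [mk2_nu]
        · rw [mk2_l]
        · rw [mk2_q]
      · intro v hv hve
        obtain ⟨hl0, hr0, hsum, -, -⟩ := el0 A b v hv
        have hle : v (i : ℕ) ≤ 1 := by
          have h4 : v (i : ℕ) + v (m + (i : ℕ)) ≤ ∑ c : Fin m, (v c + v (m + (c : ℕ))) :=
            Finset.single_le_sum (f := fun c : Fin m => v c + v (m + (c : ℕ)))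
              (fun c _ => add_nonneg (hl0 c) (hr0 c)) (Finset.mem_univ i)
          have := hr0 i
          linarith
        refine ⟨_, Finset.mem_singleton_self _, ?_, ?_⟩
        · have h5 : (2 : ℝ) ^ r ≤ 2 ^ (3 * r + 3) := pow_le_pow_right₀ (by norm_num) (by omega)
          have h6 : 2 ^ r * y i ≤ 2 ^ (3 * r + 3) * y i :=
            mul_le_mul_of_nonneg_right h5 (hy0 i)
          show v (i : ℕ) ≤ 2 ^ (3 * r + 3) * y i
          linarith
        · show v (i : ℕ) * 0 ≤ _
          rw [mul_zero]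
          have h8 : 0 ≤ y i := hy0 i
          have h7 : 0 ≤ max (v (m + m)) 0 := le_max_right _ _
          show 0 ≤ 2 ^ (3 * r + 3) * y i * max (v (m + m)) 0
          exact mul_nonneg (mul_nonneg (by positivity) h8) h7
    · -- classes
      have h4 : DomE (r + (insert (1 / 2) S).card + S'.card + 1)
          (Lsp m n 0 (start A b) (dr0 m)) (Xc m (dr0 m)) (m + m) (m + m + 1) i := by
        refine domE_of_cls hS he (insert (1 / 2) S) S' ?_
        intro v hv hve
        obtain ⟨hl0, hr0, hsum, hq, h5 | ⟨hex, hC⟩⟩ := el0 A b v hv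
        · left
          refine ⟨1 / 2, Finset.mem_insert_self _ _, by norm_num, ?_, ?_⟩
          · rw [h5 i he' hve]
          · rw [h5 i he' hve]
            have : (1 : ℝ) ≤ 2 ^ r := one_le_pow₀ (by norm_num)
            linarith
        · have hvi : 0 < v (i : ℕ) := lt_of_le_of_ne (hl0 i) (Ne.symm hve)
          have hr : v (m + (i : ℕ)) = 0 := (hex i).resolve_left hve
          have hmass : mass (fun c : Fin m => v c - v (m + (c : ℕ))) = 1 := by
            unfold mass
            rw [← hsum]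
            refine Finset.sum_congr rfl fun c _ => ?_
            show |v c - v (m + (c : ℕ))| = v c + v (m + (c : ℕ))
            rcases hex c with h6 | h6
            · rw [h6, zero_sub, abs_neg, abs_of_nonneg (hr0 c), zero_add]
            · rw [h6, sub_zero, abs_of_nonneg (hl0 c), add_zero]
          have hneg : neg (fun c : Fin m => v c - v (m + (c : ℕ))) = v (m + m) := by
            unfold neg
            rw [hq]
            refine Finset.sum_congr rfl fun c _ => ?_
            show max (-(v c - v (m + (c : ℕ)))) 0 = v (m + (c : ℕ))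
            rcases hex c with h6 | h6
            · rw [h6, zero_sub, neg_neg, max_eq_left (hr0 c)]
            · rw [h6, sub_zero, max_eq_right (by linarith [hl0 c])]
          have hval : v (i : ℕ) - v (m + (i : ℕ)) = v (i : ℕ) := by
            rw [hr, sub_zero]
          have h7 := h3 _ hC (by show 0 < v (i : ℕ) - v (m + (i : ℕ)); rw [hval]; exact hvi)
          rw [hmass, div_one, div_one, hneg] at h7
          have h7' : Near r S (v (i : ℕ) - v (m + (i : ℕ))) ∨ v (m + m) = 0 ∨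
              Near r S' (v (m + m)) := h7
          rw [hval] at h7'
          clear h7
          have h7 := h7'
          rcases h7 with h7 | h7 | h7
          · exact Or.inl (h7.mono le_rfl (Finset.subset_insert _ _))
          · exact Or.inr (Or.inl h7.le)
          · exact Or.inr (Or.inr h7)
      refine h4.mono ?_
      have := Finset.card_insert_le (1 / 2 : ℝ) S
      omega
  · -- the coordinates of the negative part
    refine ⟨{(1 / 2, 1 / 2)}, ?_, ?_, ?_⟩
    · rw [Finset.card_singleton]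
      omega
    · intro k hk
      rw [Finset.mem_singleton] at hk
      subst hk
      refine ⟨by norm_num, by norm_num, mk2 (fun d => if d = i then 1 / 2 else 0)
        (fun d => if d = i then 1 / 2 else 0) (1 / 2) 1, ?_, ?_, ?_, ?_, ?_⟩
      · rw [mem_Lsp0]
        refine ⟨fun j => ?_, ?_, ?_⟩
        · simp
        · simp
        · simp [Finset.sum_add_distrib]
          norm_num
      · intro c hc
        rw [Xc0, Finset.mem_range] at hc
        rcases lt_cases' hc with ⟨d, rfl⟩ | ⟨d, rfl⟩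
        · rw [mk2_l]
          split_ifs <;> norm_num
        · rw [mk2_r]
          split_ifs <;> norm_num
      · rw [mk2_nu]
      · rw [mk2_r, if_pos rfl]
      · rw [mk2_q]
    · intro v hv hve
      obtain ⟨hl0, hr0, hsum, hq, -⟩ := el0 A b v hv
      have h1 : v (m + (i : ℕ)) ≤ v (m + m) := by
        rw [hq]
        exact Finset.single_le_sum (f := fun c : Fin m => v (m + (c : ℕ)))
          (fun c _ => hr0 c) (Finset.mem_univ i)
      have h2 : v (m + m) ≤ 1 := by
        rw [hq, ← hsum]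
        exact Finset.sum_le_sum fun c _ => by linarith [hl0 c]
      have h3 : (2 : ℝ) ≤ 2 ^ (3 * r + 3) := by
        calc (2 : ℝ) = 2 ^ 1 := (pow_one _).symm
          _ ≤ 2 ^ (3 * r + 3) := pow_le_pow_right₀ (by norm_num) (by omega)
      have h4 : 0 ≤ v (m + (i : ℕ)) := hr0 i
      refine ⟨_, Finset.mem_singleton_self _, ?_, ?_⟩
      · show v (m + (i : ℕ)) ≤ 2 ^ (3 * r + 3) * (1 / 2)
        linarith
      · show v (m + (i : ℕ)) * (1 / 2) ≤ 2 ^ (3 * r + 3) * (1 / 2) * max (v (m + m)) 0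
        rw [max_eq_left (h4.trans h1)]
        nlinarith

theorem dom1 {r m n : ℕ} (A : Matrix (Fin m) (Fin n) ℝ) (b : Fin m → ℝ) (h : Vert r A b)
    (B : List Bool) : Dom (3 * r + 3) (Lsp m n 1 (start A b) (dr1 m B)) (Xc m (dr1 m B)) (m + m)
      (m + m + 1) := by
  classical
  intro e he
  change DomE (3 * r + 3) _ _ _ _ e
  have hS := (t_LSP m n 1 (start A b) (dr1 m B)).1
  have he' := he
  rw [mem_Xc1] at he'
  obtain ⟨S, S', h1, h2, h3⟩ := h ⟨e, he'.1⟩
  have h4 : DomE (r + S.card + S'.card + 1)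
      (Lsp m n 1 (start A b) (dr1 m B)) (Xc m (dr1 m B)) (m + m) (m + m + 1) e := by
    refine domE_of_cls hS he S S' ?_
    intro v hv hve
    obtain ⟨hnn, hsum, hq, hC⟩ := el1 A b B v hv
    have hve' : rs B v (⟨e, he'.1⟩ : Fin m) = v e := by
      unfold rs
      rw [if_pos he'.2]
    have hv0 : 0 < v e := lt_of_le_of_ne (hv.2.1 e he) (Ne.symm hve)
    have hmass : mass (rs (m := m) B v) = 1 := by
      unfold mass
      rw [← hsum]
      exact Finset.sum_congr rfl fun c _ => abs_of_nonneg (hnn c)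
    have h5 := h3 _ hC hnn (by rw [hve']; exact hv0)
    have hb : b ⬝ᵥ rs B v = - v (m + m) := by
      rw [hq, neg_neg]
      rfl
    rw [hmass, div_one, div_one, hve', hb, neg_neg] at h5
    rcases h5 with h5 | h5 | h5
    · exact Or.inl h5
    · exact Or.inr (Or.inl (by linarith))
    · exact Or.inr (Or.inr h5)
  exact h4.mono (by omega)

theorem dom2 {r m n : ℕ} (A : Matrix (Fin m) (Fin n) ℝ) (b : Fin m → ℝ) (h : Start r A)
    (h' : Vert r A b) : Dom2 (3 * r + 3) A b :=
  ⟨dom0 A b h, fun B _ => dom1 A b h' B⟩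

/-! ### Linear programs in standard form -/

/-- The matrix of the instance for the linear program with the feasible set
`{z ≥ 0, D z = d}`. -/
def stdA {k l : ℕ} (D : Matrix (Fin k) (Fin l) ℝ) (d : Fin k → ℝ) :
    Matrix (Fin (l + 1)) (Fin k) ℝ :=
  Matrix.of (Fin.snoc (α := fun _ => Fin k → ℝ) (fun j i => D i j) fun i => - d i)

/-- The right-hand side of the instance. -/
def stdB {l : ℕ} (f : Fin l → ℝ) (γ : ℝ) : Fin (l + 1) → ℝ :=
  Fin.snoc (α := fun _ => ℝ) f (- γ)

/-- The feasible set. -/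
def Pol {k l : ℕ} (D : Matrix (Fin k) (Fin l) ℝ) (d : Fin k → ℝ) : Set (Fin l → ℝ) :=
  {z | 0 ≤ z ∧ D.mulVec z = d}

theorem stdA_cast {k l : ℕ} (D : Matrix (Fin k) (Fin l) ℝ) (d : Fin k → ℝ) (j : Fin l)
    (i : Fin k) : stdA D d j.castSucc i = D i j := by
  simp [stdA]

theorem stdA_last {k l : ℕ} (D : Matrix (Fin k) (Fin l) ℝ) (d : Fin k → ℝ)
    (i : Fin k) : stdA D d (Fin.last l) i = - d i := by
  simp [stdA]

theorem std_ker {k l : ℕ} (D : Matrix (Fin k) (Fin l) ℝ) (d : Fin k → ℝ) (y : Fin (l + 1) → ℝ) :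
    (stdA D d).vecMul y = 0 ↔
      D.mulVec (fun j => y j.castSucc) = fun i => y (Fin.last l) * d i := by
  rw [vecMul_zero_iff, funext_iff]
  refine forall_congr' fun i => ?_
  rw [Fin.sum_univ_castSucc]
  simp only [stdA_cast, stdA_last]
  show _ ↔ ∑ j, D i j * y j.castSucc = _
  constructor
  · intro h
    linarith
  · intro h
    linarith

/-- The conditions on the polytope: it is bounded and contains a point with coordinates between
`2 ^ (-r)` and `2 ^ r`, and for every `j` the nonzero coordinates number `j` of the vertices lie in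
at most `r` intervals `[s, 2 ^ r s]`. -/
structure PolOK (r : ℕ) {k l : ℕ} (D : Matrix (Fin k) (Fin l) ℝ) (d : Fin k → ℝ) : Prop where
  bdd : ∃ R : ℝ, ∀ z ∈ Pol D d, ∀ j, z j ≤ R
  cen : ∃ z ∈ Pol D d, ∀ j, 1 ≤ 2 ^ r * z j ∧ z j ≤ 2 ^ r
  sc : ∀ j, ∃ S : Finset ℝ, S.card ≤ r ∧ ∀ z ∈ (Pol D d).extremePoints ℝ, z j ≠ 0 →
    Near r S (z j)

theorem one_add_le {r l : ℕ} {z : Fin l → ℝ} (h : ∀ j, z j ≤ 2 ^ r) :
    1 + ∑ j, z j ≤ 2 ^ (l + r) := by
  have h1 : ∑ j, z j ≤ l * 2 ^ r := by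
    calc ∑ j, z j ≤ ∑ _j : Fin l, (2 : ℝ) ^ r := Finset.sum_le_sum fun j _ => h j
      _ = l * 2 ^ r := by simp
  have h2 : (1 : ℝ) ≤ 2 ^ r := one_le_pow₀ (by norm_num)
  have h3 : ((l : ℝ) + 1) ≤ 2 ^ l := by
    exact_mod_cast (Nat.lt_two_pow_self (n := l))
  calc 1 + ∑ j, z j ≤ ((l : ℝ) + 1) * 2 ^ r := by linarith
    _ ≤ 2 ^ l * 2 ^ r := by gcongr
    _ = 2 ^ (l + r) := (pow_add _ _ _).symm

/-- No recession directions. -/
theorem no_rec {r k l : ℕ} {D : Matrix (Fin k) (Fin l) ℝ} {d : Fin k → ℝ} (h : PolOK r D d)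
    (u : Fin l → ℝ) (hu : 0 ≤ u) (hD : D.mulVec u = 0) : u = 0 := by
  obtain ⟨R, hR⟩ := h.bdd
  obtain ⟨z, hzP, -⟩ := h.cen
  funext j
  by_contra hne
  have hpos : 0 < u j := lt_of_le_of_ne (hu j) (Ne.symm hne)
  obtain ⟨N, hN⟩ := exists_nat_gt ((R - z j) / u j)
  have h1 : z + (N : ℝ) • u ∈ Pol D d := by
    refine ⟨fun i => ?_, ?_⟩
    · show 0 ≤ z i + N * u i
      have h2 : 0 ≤ z i := hzP.1 i
      have h3 : 0 ≤ u i := hu i
      positivity
    · rw [Matrix.mulVec_add, Matrix.mulVec_smul, hD, smul_zero, add_zero]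
      exact hzP.2
  have h2 := hR _ h1 j
  have h3 : z j + N * u j ≤ R := h2
  rw [div_lt_iff₀ hpos] at hN
  linarith

/-- The nonnegative circuits are given by the vertices. -/
theorem circ_std {r k l : ℕ} {D : Matrix (Fin k) (Fin l) ℝ} {d : Fin k → ℝ} (h : PolOK r D d)
    (C : Fin (l + 1) → ℝ) (hC : Circ (stdA D d) C) (hC0 : 0 ≤ C) :
    0 < C (Fin.last l) ∧
      (fun j : Fin l => C j.castSucc / C (Fin.last l)) ∈ (Pol D d).extremePoints ℝ := by
  obtain ⟨h1, h2, h3⟩ := hC
  have h2' := (std_ker D d C).1 h2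
  have hτ : 0 < C (Fin.last l) := by
    by_contra hcon
    have h4 : C (Fin.last l) = 0 := le_antisymm (not_lt.1 hcon) (hC0 _)
    rw [h4] at h2'
    have h5 := no_rec h (fun j => C j.castSucc) (fun j => hC0 _) (by
      rw [h2']
      funext i
      simp)
    apply h1
    funext j
    refine Fin.lastCases h4 (fun j => congrFun h5 j) j
  refine ⟨hτ, ?_⟩
  set τ := C (Fin.last l) with hτd
  have hzP : (fun j : Fin l => C j.castSucc / τ) ∈ Pol D d := by
    refine ⟨fun j => div_nonneg (hC0 _) hτ.le, ?_⟩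
    have e1 : (fun j : Fin l => C j.castSucc / τ) = τ⁻¹ • fun j : Fin l => C j.castSucc := by
      funext j
      show C j.castSucc / τ = τ⁻¹ * C j.castSucc
      ring
    rw [e1, Matrix.mulVec_smul, h2']
    funext i
    show τ⁻¹ * (τ * d i) = d i
    field_simp
  rw [mem_extremePoints]
  refine ⟨hzP, ?_⟩
  have key : ∀ z₁ ∈ Pol D d, (∀ j, C j.castSucc = 0 → z₁ j = 0) →
      z₁ = fun j : Fin l => C j.castSucc / τ := by
    intro z₁ hz₁ hs
    obtain ⟨c, hc⟩ := h3 (Fin.snoc (α := fun _ => ℝ) z₁ 1) ((std_ker D d _).2 (by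
      simp only [Fin.snoc_castSucc, Fin.snoc_last, one_mul]
      exact hz₁.2)) (by
      intro i
      refine Fin.lastCases ?_ (fun j => ?_) i
      · intro h0
        exact absurd h0 hτ.ne'
      · intro h0
        rw [Fin.snoc_castSucc]
        exact hs j h0)
    have h5 := congrFun hc (Fin.last l)
    rw [Fin.snoc_last] at h5
    have h5' : 1 = c * τ := h5
    funext j
    have h6 := congrFun hc j.castSucc
    rw [Fin.snoc_castSucc] at h6
    have h6' : z₁ j = c * C j.castSucc := h6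
    rw [h6', eq_div_iff hτ.ne']
    calc c * C j.castSucc * τ = (c * τ) * C j.castSucc := by ring
      _ = C j.castSucc := by rw [← h5', one_mul]
  intro z₁ hz₁ z₂ hz₂ hseg
  obtain ⟨a, a', ha, ha', -, haz⟩ := hseg
  have hzero : ∀ j, C j.castSucc = 0 → z₁ j = 0 ∧ z₂ j = 0 := by
    intro j hj
    have h5 := congrFun haz j
    have h6 : a * z₁ j + a' * z₂ j = C j.castSucc / τ := h5
    rw [hj, zero_div] at h6
    have h7 : 0 ≤ z₁ j := hz₁.1 j
    have h8 : 0 ≤ z₂ j := hz₂.1 j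
    have h9 := mul_nonneg ha.le h7
    have h10 := mul_nonneg ha'.le h8
    have h11 : a * z₁ j = 0 := by linarith
    have h12 : a' * z₂ j = 0 := by linarith
    exact ⟨(mul_eq_zero.1 h11).resolve_left ha.ne', (mul_eq_zero.1 h12).resolve_left ha'.ne'⟩
  exact ⟨key z₁ hz₁ fun j hj => (hzero j hj).1, key z₂ hz₂ fun j hj => (hzero j hj).2⟩

theorem start_std {r k l : ℕ} {D : Matrix (Fin k) (Fin l) ℝ} {d : Fin k → ℝ}
    (h : PolOK r D d) : Start (2 * r + l) (stdA D d) := by
  intro i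
  left
  obtain ⟨z, hzP, hzr⟩ := h.cen
  have hz0 : ∀ j, 0 ≤ z j := fun j => hzP.1 j
  have hub : ∀ j, z j ≤ 2 ^ r := fun j => (hzr j).2
  have hs := one_add_le hub
  have hs0 : 0 ≤ ∑ j, z j := Finset.sum_nonneg fun j _ => hz0 j
  set σ := 1 + ∑ j, z j with hσ
  have hσ0 : 0 < σ := by linarith
  refine ⟨fun i => σ⁻¹ * (Fin.snoc (α := fun _ => ℝ) z 1 : Fin (l + 1) → ℝ) i, ?_, ?_, ?_, ?_⟩
  · intro i
    refine mul_nonneg (inv_nonneg.2 hσ0.le) ?_
    refine Fin.lastCases ?_ (fun j => ?_) i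
    · rw [Fin.snoc_last]
      exact zero_le_one
    · rw [Fin.snoc_castSucc]
      exact hz0 j
  · rw [std_ker]
    simp only [Fin.snoc_castSucc, Fin.snoc_last, mul_one]
    have e1 : (fun j : Fin l => σ⁻¹ * z j) = σ⁻¹ • z := rfl
    rw [e1, Matrix.mulVec_smul, hzP.2]
    rfl
  · rw [← Finset.mul_sum, Fin.sum_univ_castSucc]
    simp only [Fin.snoc_castSucc, Fin.snoc_last]
    rw [add_comm, ← hσ, inv_mul_cancel₀ hσ0.ne']
  · have h1 : 1 ≤ 2 ^ r * (Fin.snoc (α := fun _ => ℝ) z 1 : Fin (l + 1) → ℝ) i := by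
      refine Fin.lastCases ?_ (fun j => ?_) i
      · rw [Fin.snoc_last, mul_one]
        exact one_le_pow₀ (by norm_num)
      · rw [Fin.snoc_castSucc]
        exact (hzr j).1
    have h2 : σ * σ⁻¹ = 1 := mul_inv_cancel₀ hσ0.ne'
    have h3 : (2 : ℝ) ^ (2 * r + l) = 2 ^ r * 2 ^ (l + r) := by
      rw [← pow_add]
      congr 1
      omega
    set t := (Fin.snoc (α := fun _ => ℝ) z 1 : Fin (l + 1) → ℝ) i with ht
    have h4 : 1 ≤ 2 ^ (l + r) * σ⁻¹ := by
      rw [← div_eq_mul_inv, le_div_iff₀ hσ0, one_mul]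
      exact hs
    show 1 ≤ 2 ^ (2 * r + l) * (σ⁻¹ * t)
    calc (1 : ℝ) = 1 * 1 := (mul_one _).symm
      _ ≤ (2 ^ (l + r) * σ⁻¹) * (2 ^ r * t) := mul_le_mul h4 h1 zero_le_one (by positivity)
      _ = 2 ^ (2 * r + l) * (σ⁻¹ * t) := by rw [h3]; ring

/-- The bound for the second phase. -/
def rV (r l : ℕ) : ℕ := 2 * r + l + (r + 1) * (l * r + 1)

theorem vert_std {r k l : ℕ} {D : Matrix (Fin k) (Fin l) ℝ} {d : Fin k → ℝ} (h : PolOK r D d)
    (b : Fin (l + 1) → ℝ) : Vert (rV r l) (stdA D d) b := by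
  classical
  choose S hS1 hS2 using h.sc
  -- all scales
  set U : Finset ℝ := insert 1 (Finset.univ.biUnion S) with hU
  have hUc : U.card ≤ l * r + 1 := by
    refine (Finset.card_insert_le _ _).trans (Nat.add_le_add_right ?_ 1)
    refine Finset.card_biUnion_le.trans ((Finset.sum_le_sum fun j _ => hS1 j).trans ?_)
    simp
  intro i
  -- the scales of the coordinate
  obtain ⟨V, hV1, hV2⟩ : ∃ V : Finset ℝ, V.card ≤ r + 1 ∧ ∀ C, Circ (stdA D d) C → 0 ≤ C →
      0 < C i → Near r V (C i / C (Fin.last l)) := by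
    refine Fin.lastCases ?_ (fun j => ?_) i
    · refine ⟨{1}, by simp, fun C hC hC0 hCi => ⟨1, by simp, one_pos, ?_, ?_⟩⟩
      · rw [div_self hCi.ne']
      · rw [div_self hCi.ne', mul_one]
        exact one_le_pow₀ (by norm_num)
    · refine ⟨S j, (hS1 j).trans (Nat.le_succ _), fun C hC hC0 hCi => ?_⟩
      obtain ⟨hτ, hz⟩ := circ_std h C hC hC0
      exact hS2 j _ hz (div_pos hCi hτ).ne'
  refine ⟨(V ×ˢ U).image (fun p => p.1 / (((l : ℝ) + 1) * 2 ^ r * p.2)), ∅, ?_, by simp, ?_⟩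
  · refine Finset.card_image_le.trans ?_
    rw [Finset.card_product]
    exact (Nat.mul_le_mul hV1 hUc).trans (Nat.le_add_left _ _)
  intro C hC hC0 hCi
  left
  obtain ⟨hτ, hz⟩ := circ_std h C hC hC0
  obtain ⟨s, hs, hs0, hs1, hs2⟩ := hV2 C hC hC0 hCi
  set τ := C (Fin.last l) with hτd
  set z : Fin l → ℝ := fun j => C j.castSucc / τ with hzd
  have hz0 : ∀ j, 0 ≤ z j := fun j => div_nonneg (hC0 _) hτ.le
  have hsum0 : 0 ≤ ∑ j, z j := Finset.sum_nonneg fun j _ => hz0 j
  have hCz : ∀ j, C (Fin.castSucc j) = τ * z j := fun j => by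
    rw [hzd]
    show C j.castSucc = τ * (C j.castSucc / τ)
    field_simp
  have hmass : mass C = τ * (1 + ∑ j, z j) := by
    unfold mass
    rw [Fin.sum_univ_castSucc]
    have e1 : ∀ j : Fin l, |C (Fin.castSucc j)| = τ * z j := fun j => by
      rw [abs_of_nonneg (hC0 _), hCz]
    rw [Finset.sum_congr rfl fun j _ => e1 j, ← Finset.mul_sum, ← hτd, abs_of_pos hτ]
    ring
  -- the largest coordinate
  obtain ⟨M, hM1, hM2, hM3⟩ : ∃ M : ℝ, Near r U M ∧ M ≤ 1 + ∑ j, z j ∧
      1 + ∑ j, z j ≤ ((l : ℝ) + 1) * M := by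
    have h1r : (1 : ℝ) ≤ 2 ^ r := one_le_pow₀ (by norm_num)
    by_cases hcase : ∃ j, 1 < z j
    · obtain ⟨j₁, hj₁⟩ := hcase
      obtain ⟨j, -, hj⟩ := Finset.exists_max_image Finset.univ z ⟨j₁, Finset.mem_univ _⟩
      have hj1 : 1 < z j := lt_of_lt_of_le hj₁ (hj j₁ (Finset.mem_univ _))
      refine ⟨z j, ?_, ?_, ?_⟩
      · refine (hS2 j _ hz (show z j ≠ 0 by linarith)).mono le_rfl ?_
        intro x hx
        exact Finset.mem_insert_of_mem (Finset.mem_biUnion.2 ⟨j, Finset.mem_univ _, hx⟩)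
      · have : z j ≤ ∑ j, z j := Finset.single_le_sum (fun c _ => hz0 c) (Finset.mem_univ j)
        linarith
      · have : ∑ c, z c ≤ l * z j := by
          calc ∑ c, z c ≤ ∑ _c : Fin l, z j :=
                Finset.sum_le_sum fun c hc => hj c (Finset.mem_univ _)
            _ = l * z j := by simp
        linarith
    · push Not at hcase
      refine ⟨1, ⟨1, Finset.mem_insert_self _ _, one_pos, le_rfl, by rw [mul_one]; exact h1r⟩,
        by linarith, ?_⟩
      have : ∑ c, z c ≤ l := by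
        calc ∑ c, z c ≤ ∑ _c : Fin l, (1 : ℝ) := Finset.sum_le_sum fun c _ => hcase c
          _ = l := by simp
      linarith
  obtain ⟨s', hs', hs'0, hs'1, hs'2⟩ := hM1
  have hl1 : (0 : ℝ) < (l : ℝ) + 1 := by positivity
  have hM0 : 0 < M := lt_of_lt_of_le hs'0 hs'1
  have hN0 : 0 < 1 + ∑ j, z j := by linarith
  have hval : C i / mass C = (C i / τ) / (1 + ∑ j, z j) := by
    rw [hmass, div_div]
  refine ⟨_, Finset.mem_image.2 ⟨(s, s'), Finset.mem_product.2 ⟨hs, hs'⟩, rfl⟩, ?_, ?_, ?_⟩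
  · show 0 < s / (((l : ℝ) + 1) * 2 ^ r * s')
    positivity
  · rw [hval]
    show s / (((l : ℝ) + 1) * 2 ^ r * s') ≤ _
    have h1 : 1 + ∑ j, z j ≤ ((l : ℝ) + 1) * 2 ^ r * s' := by
      refine hM3.trans ?_
      rw [mul_assoc]
      gcongr
    have h2 : 0 ≤ C i / τ := (div_pos hCi hτ).le
    calc s / (((l : ℝ) + 1) * 2 ^ r * s') ≤ (C i / τ) / (((l : ℝ) + 1) * 2 ^ r * s') := by
          gcongr
      _ ≤ (C i / τ) / (1 + ∑ j, z j) := by gcongr
  · rw [hval]
    show _ ≤ 2 ^ rV r l * (s / (((l : ℝ) + 1) * 2 ^ r * s'))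
    have h1 : s' ≤ 1 + ∑ j, z j := hs'1.trans hM2
    have h3 : ((l : ℝ) + 1) ≤ 2 ^ l := by exact_mod_cast (Nat.lt_two_pow_self (n := l))
    have h4 : ((l : ℝ) + 1) * 2 ^ r * 2 ^ r ≤ 2 ^ rV r l := by
      calc ((l : ℝ) + 1) * 2 ^ r * 2 ^ r ≤ 2 ^ l * 2 ^ r * 2 ^ r := by gcongr
        _ = 2 ^ (l + r + r) := by rw [pow_add, pow_add]
        _ ≤ 2 ^ rV r l := pow_le_pow_right₀ (by norm_num) (by unfold rV; omega)
    calc (C i / τ) / (1 + ∑ j, z j) ≤ (2 ^ r * s) / s' := by gcongr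
      _ = (((l : ℝ) + 1) * 2 ^ r * 2 ^ r) * (s / (((l : ℝ) + 1) * 2 ^ r * s')) := by
          field_simp
      _ ≤ 2 ^ rV r l * (s / (((l : ℝ) + 1) * 2 ^ r * s')) := by gcongr

/-- The meaning of the instance. -/
theorem std_feas {r k l : ℕ} {D : Matrix (Fin k) (Fin l) ℝ} {d : Fin k → ℝ} (h : PolOK r D d)
    (f : Fin l → ℝ) (γ : ℝ) :
    (∃ x : Fin k → ℝ, stdB f γ ≤ (stdA D d).mulVec x) ↔ ∀ z ∈ Pol D d, f ⬝ᵥ z ≤ γ := by
  constructor
  · rintro ⟨x, hx⟩ z hz
    have h1 : ∀ j : Fin l, f j ≤ ∑ i, D i j * x i := by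
      intro j
      have h2 := hx j.castSucc
      unfold stdB at h2
      rw [Fin.snoc_castSucc] at h2
      have h3 : (stdA D d).mulVec x j.castSucc = ∑ i, D i j * x i := by
        show ∑ i, stdA D d j.castSucc i * x i = _
        exact Finset.sum_congr rfl fun i _ => by rw [stdA_cast]
      rwa [h3] at h2
    have h4 : ∑ i, d i * x i ≤ γ := by
      have h2 := hx (Fin.last l)
      unfold stdB at h2
      rw [Fin.snoc_last] at h2
      have h3 : (stdA D d).mulVec x (Fin.last l) = - ∑ i, d i * x i := by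
        show ∑ i, stdA D d (Fin.last l) i * x i = _
        rw [← Finset.sum_neg_distrib]
        exact Finset.sum_congr rfl fun i _ => by rw [stdA_last]; ring
      rw [h3] at h2
      linarith
    calc f ⬝ᵥ z = ∑ j, f j * z j := rfl
      _ ≤ ∑ j, (∑ i, D i j * x i) * z j :=
          Finset.sum_le_sum fun j _ => mul_le_mul_of_nonneg_right (h1 j) (hz.1 j)
      _ = ∑ i, (∑ j, D i j * z j) * x i := by
          simp only [Finset.sum_mul]
          rw [Finset.sum_comm]
          exact Finset.sum_congr rfl fun i _ => Finset.sum_congr rfl fun j _ => by ring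
      _ = ∑ i, d i * x i := by
          refine Finset.sum_congr rfl fun i _ => ?_
          have h5 : ∑ j, D i j * z j = d i := congrFun hz.2 i
          rw [h5]
      _ ≤ γ := h4
  · intro hall
    by_contra hcon
    have hnf : ¬ Feas ((fun i j => stdA D d i j, stdB f γ) : Inp (l + 1) k) := by
      rintro ⟨x, hx⟩
      exact hcon ⟨x, fun i => hx i⟩
    obtain ⟨y, hy0, hyA, hyb⟩ := (t_FARKAS (l + 1) k _).1 hnf
    have hyA' : (stdA D d).vecMul y = 0 := by
      funext j
      exact hyA j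
    have h1 := (std_ker D d y).1 hyA'
    have hb : ∑ i, y i * stdB f γ i = f ⬝ᵥ (fun j : Fin l => y j.castSucc) -
        y (Fin.last l) * γ := by
      rw [Fin.sum_univ_castSucc]
      unfold stdB
      simp only [Fin.snoc_castSucc, Fin.snoc_last]
      have e1 : ∑ i : Fin l, y i.castSucc * f i = f ⬝ᵥ fun j : Fin l => y j.castSucc :=
        Finset.sum_congr rfl fun j _ => mul_comm _ _
      rw [e1]
      ring
    have hyb' : 0 < ∑ i, y i * stdB f γ i := hyb
    rw [hb] at hyb'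
    by_cases hτ : y (Fin.last l) = 0
    · have h2 := no_rec h (fun j => y j.castSucc) (fun j => hy0 _) (by
        rw [h1, hτ]
        funext i
        simp)
      rw [h2, hτ] at hyb'
      simp at hyb'
    · have hτ0 : 0 < y (Fin.last l) := lt_of_le_of_ne (hy0 _) (Ne.symm hτ)
      set τ := y (Fin.last l) with hτd
      have h3 := hall (τ⁻¹ • fun j : Fin l => y j.castSucc) ⟨fun j =>
        mul_nonneg (inv_nonneg.2 hτ0.le) (hy0 _), by
        rw [Matrix.mulVec_smul, h1]
        funext i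
        show τ⁻¹ * (τ * d i) = d i
        field_simp⟩
      rw [dotProduct_smul, smul_eq_mul, inv_mul_le_iff₀ hτ0] at h3
      linarith

end Pool.Agent.L7h39.VS
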